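import Mathlib
import Pool.Agent.TH275.UQ.Uniq

set_option autoImplicit false

/-!
Cantor-Lebesgue for trigonometric series converging to zero almost everywhere, the bounded form of
Riemann's summability theorem, and the theorem of de la Vallée-Poussin for bounded second differences.
-/

namespace Pool.Agent.TH723.BR

open Filter Topology MeasureTheory
open Pool.Agent.TH275.UQ

/-- **Cantor-Lebesgue**, almost everywhere version. -/
theorem cantor_ae (c : ℤ → ℂ)
    (h : ∀ᵐ x : ℝ, Tendsto (fun N : ℕ => S c N x) atTop (𝓝 0)) :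
    Tendsto (fun n : ℕ => ‖c ((n : ℤ) + 1)‖ ^ 2 + ‖c (-((n : ℤ) + 1))‖ ^ 2) atTop (𝓝 0) := by
  obtain ⟨p, q, hpq⟩ : ∃ p q : ℝ, p < q := ⟨0, 1, one_pos⟩
  set ρ : ℕ → ℝ := fun n => ‖c ((n : ℤ) + 1)‖ ^ 2 + ‖c (-((n : ℤ) + 1))‖ ^ 2 with hρ
  have hρ0 : ∀ n, 0 ≤ ρ n := fun n => by positivity
  let A : ℕ → ℝ → ℂ := fun n x => c ((n : ℤ) + 1) * ex ((n : ℤ) + 1) x +
    c (-((n : ℤ) + 1)) * ex (-((n : ℤ) + 1)) x
  have hAc : ∀ n, Continuous (A n) := fun n =>
    (continuous_const.mul (ex_cont _)).add (continuous_const.mul (ex_cont _))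
  have hA0 : ∀ x, Tendsto (fun N : ℕ => S c N x) atTop (𝓝 0) → Tendsto (fun n => A n x) atTop (𝓝 0) := by
    intro x h1
    have h2 := h1.comp (tendsto_add_atTop_nat 1)
    have h3 := h2.sub h1
    rw [sub_zero] at h3
    refine h3.congr fun n => ?_
    simp only [Function.comp_apply, S_eq]
    rw [Finset.sum_range_succ _ (n + 1)]
    simp only [sym, A]
    ring
  -- the square of the absolute value
  have hsq : ∀ n x, ‖A n x‖ ^ 2 = ρ n + 2 * (c ((n : ℤ) + 1) *
      starRingEnd ℂ (c (-((n : ℤ) + 1))) * ex (2 * ((n : ℤ) + 1)) x).re := by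
    intro n x
    set m : ℤ := (n : ℤ) + 1 with hm
    have e1 : ex (2 * m) x = ex m x * ex m x := by rw [two_mul, ex_add_left]
    rw [← Complex.normSq_eq_norm_sq]
    simp only [A, ← hm]
    rw [Complex.normSq_add, Complex.normSq_eq_norm_sq, Complex.normSq_eq_norm_sq, norm_mul, norm_mul,
      ex_norm, ex_norm, mul_one, mul_one]
    rw [map_mul, ← ex_neg, neg_neg, e1]
    congr 2
    ring_nf
  have hle : ∀ n x, ‖A n x‖ ^ 2 ≤ 2 * ρ n := by
    intro n x
    have h1 : ‖A n x‖ ≤ ‖c ((n : ℤ) + 1)‖ + ‖c (-((n : ℤ) + 1))‖ := by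
      refine (norm_add_le _ _).trans ?_
      rw [norm_mul, norm_mul, ex_norm, ex_norm, mul_one, mul_one]
    have h2 := norm_nonneg (A n x)
    have h3 : ‖A n x‖ ^ 2 ≤ (‖c ((n : ℤ) + 1)‖ + ‖c (-((n : ℤ) + 1))‖) ^ 2 := by gcongr
    refine h3.trans ?_
    simp only [hρ]
    nlinarith [sq_nonneg (‖c ((n : ℤ) + 1)‖ - ‖c (-((n : ℤ) + 1))‖)]
  -- dominated convergence
  have hdct : Tendsto (fun n => ∫ x in p..q, ‖A n x‖ ^ 2 / (1 + ρ n)) atTop (𝓝 0) := by
    have h0 : (∫ x in p..q, (0 : ℝ)) = 0 := by simp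
    rw [← h0]
    apply intervalIntegral.tendsto_integral_filter_of_dominated_convergence (fun _ => 2)
    · refine Eventually.of_forall fun n => ?_
      exact (((hAc n).norm.pow 2).div_const _).aestronglyMeasurable
    · refine Eventually.of_forall fun n => ae_of_all _ fun x _ => ?_
      rw [Real.norm_eq_abs, abs_of_nonneg (div_nonneg (by positivity) (by linarith [hρ0 n])),
        div_le_iff₀ (by linarith [hρ0 n])]
      have := hle n x
      linarith
    · exact intervalIntegrable_const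
    · filter_upwards [h] with x hxq hx
      have h1 := (hA0 x hxq).norm.pow 2
      rw [norm_zero, zero_pow two_ne_zero] at h1
      refine squeeze_zero (fun n => div_nonneg (by positivity) (by linarith [hρ0 n])) (fun n => ?_) h1
      apply div_le_self (by positivity)
      linarith [hρ0 n]
  -- lower bound of the integrals
  have hlow : ∀ n : ℕ, 1 / (q - p) ≤ (n : ℝ) →
      ρ n / (1 + ρ n) * ((q - p) / 2) ≤ ∫ x in p..q, ‖A n x‖ ^ 2 / (1 + ρ n) := by
    intro n hn
    rw [intervalIntegral.integral_div]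
    have e1 : ∫ x in p..q, ‖A n x‖ ^ 2 = ρ n * (q - p) + 2 * (c ((n : ℤ) + 1) *
        starRingEnd ℂ (c (-((n : ℤ) + 1))) * ∫ x in p..q, ex (2 * ((n : ℤ) + 1)) x).re := by
      simp_rw [hsq]
      have hc1 : Continuous fun x => (c ((n : ℤ) + 1) *
          starRingEnd ℂ (c (-((n : ℤ) + 1))) * ex (2 * ((n : ℤ) + 1)) x) :=
        continuous_const.mul (ex_cont _)
      rw [intervalIntegral.integral_add (f := fun _ => ρ n) (g := fun x => 2 * (c ((n : ℤ) + 1) *
          starRingEnd ℂ (c (-((n : ℤ) + 1))) * ex (2 * ((n : ℤ) + 1)) x).re) intervalIntegrable_const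
        ((continuous_const.mul (Complex.continuous_re.comp hc1)).intervalIntegrable _ _),
        intervalIntegral.integral_const, intervalIntegral.integral_const_mul, smul_eq_mul,
        mul_comm (q - p)]
      congr 2
      rw [← intervalIntegral.integral_const_mul]
      have := (Complex.reCLM.intervalIntegral_comp_comm (hc1.intervalIntegrable p q)
        (μ := volume))
      simpa using this
    have hqp : 0 < q - p := by linarith
    have e2 : |2 * (c ((n : ℤ) + 1) *
        starRingEnd ℂ (c (-((n : ℤ) + 1))) * ∫ x in p..q, ex (2 * ((n : ℤ) + 1)) x).re| ≤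
        ρ n * ((q - p) / 2) := by
      rw [abs_mul, abs_two]
      have h1 := Complex.abs_re_le_norm (c ((n : ℤ) + 1) *
        starRingEnd ℂ (c (-((n : ℤ) + 1))) * ∫ x in p..q, ex (2 * ((n : ℤ) + 1)) x)
      rw [norm_mul, norm_mul, RCLike.norm_conj] at h1
      have h2 := int_ex (2 * ((n : ℤ) + 1)) (by omega) p q
      have h3 : (1 : ℝ) / (Real.pi * |((2 * ((n : ℤ) + 1) : ℤ) : ℝ)|) ≤ (q - p) / 2 := by
        have h4 : |((2 * ((n : ℤ) + 1) : ℤ) : ℝ)| = 2 * ((n : ℝ) + 1) := by
          push_cast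
          rw [abs_of_pos (by positivity)]
        rw [h4]
        rw [div_le_iff₀ hqp] at hn
        rw [div_le_iff₀ (by positivity)]
        have := Real.pi_gt_three
        have h5 : (1 : ℝ) ≤ (n : ℝ) * (q - p) := hn
        nlinarith [mul_pos (by linarith : (0:ℝ) < Real.pi - 3) hqp, mul_nonneg (mul_nonneg (by linarith : (0:ℝ) ≤ Real.pi - 3) (Nat.cast_nonneg (α := ℝ) n)) hqp.le]
      have h6 : 0 ≤ ‖c ((n : ℤ) + 1)‖ * ‖c (-((n : ℤ) + 1))‖ := by positivity
      have h7 : 2 * (‖c ((n : ℤ) + 1)‖ * ‖c (-((n : ℤ) + 1))‖) ≤ ρ n := by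
        simp only [hρ]
        nlinarith [sq_nonneg (‖c ((n : ℤ) + 1)‖ - ‖c (-((n : ℤ) + 1))‖)]
      calc 2 * |_| ≤ 2 * (‖c ((n : ℤ) + 1)‖ * ‖c (-((n : ℤ) + 1))‖ *
            ‖∫ x in p..q, ex (2 * ((n : ℤ) + 1)) x‖) := by linarith
        _ ≤ 2 * (‖c ((n : ℤ) + 1)‖ * ‖c (-((n : ℤ) + 1))‖ * ((q - p) / 2)) := by
            gcongr
            exact h2.trans h3
        _ = 2 * (‖c ((n : ℤ) + 1)‖ * ‖c (-((n : ℤ) + 1))‖) * ((q - p) / 2) := by ring
        _ ≤ _ := by gcongr
    rw [e1, div_mul_eq_mul_div]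
    apply div_le_div_of_nonneg_right _ (by linarith [hρ0 n])
    have := (abs_le.1 e2).1
    linarith
  -- conclusion
  have hqp : 0 < q - p := by linarith
  have h1 : Tendsto (fun n => ρ n / (1 + ρ n) * ((q - p) / 2)) atTop (𝓝 0) := by
    refine squeeze_zero' (Eventually.of_forall fun n =>
      mul_nonneg (div_nonneg (hρ0 n) (by linarith [hρ0 n])) (by linarith)) ?_ hdct
    obtain ⟨n0, hn0⟩ := exists_nat_ge (1 / (q - p))
    filter_upwards [eventually_ge_atTop n0] with n hn
    exact hlow n (hn0.trans (by exact_mod_cast hn))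
  have h2 : Tendsto (fun n => ρ n / (1 + ρ n)) atTop (𝓝 0) := by
    have := h1.mul_const (2 / (q - p))
    rw [zero_mul] at this
    refine this.congr fun n => ?_
    field_simp
  have h3 : Tendsto (fun n => (ρ n / (1 + ρ n)) / (1 - ρ n / (1 + ρ n))) atTop (𝓝 0) := by
    have := h2.div (h2.const_sub 1) (by norm_num)
    rw [sub_zero, zero_div] at this
    exact this
  refine h3.congr fun n => ?_
  have := hρ0 n
  field_simp
  ring

/-- The coefficients tend to zero. -/
theorem coeff_ae (c : ℤ → ℂ) (h : ∀ᵐ x : ℝ, Tendsto (fun N : ℕ => S c N x) atTop (𝓝 0)) :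
    ∀ ε : ℝ, 0 < ε → ∃ M : ℕ, ∀ n : ℤ, M ≤ n.natAbs → ‖c n‖ ≤ ε := by
  intro ε hε
  have h1 := cantor_ae c h
  rw [Metric.tendsto_atTop] at h1
  obtain ⟨M, hM⟩ := h1 (ε ^ 2) (by positivity)
  refine ⟨M + 1, fun n hn => ?_⟩
  have h2 := hM (n.natAbs - 1) (by omega)
  have h3 : ((n.natAbs - 1 : ℕ) : ℤ) + 1 = |n| := by
    rw [Int.abs_eq_natAbs]
    omega
  rw [h3, Real.dist_eq, sub_zero, abs_of_nonneg (by positivity)] at h2
  have h4 : ‖c n‖ ^ 2 < ε ^ 2 := by
    rcases abs_choice n with h5 | h5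
    · rw [h5] at h2
      have : 0 ≤ ‖c (-n)‖ ^ 2 := by positivity
      linarith
    · rw [h5, neg_neg] at h2
      have : 0 ≤ ‖c (-n)‖ ^ 2 := by positivity
      linarith
  exact (lt_of_pow_lt_pow_left₀ 2 hε.le h4).le

/-- coefficients tending to zero are bounded -/
theorem bdd_of_small (c : ℤ → ℂ) (hs : ∀ ε : ℝ, 0 < ε → ∃ M : ℕ, ∀ n : ℤ, M ≤ n.natAbs → ‖c n‖ ≤ ε) :
    ∃ C : ℝ, ∀ n, ‖c n‖ ≤ C := by
  obtain ⟨M, hM⟩ := hs 1 one_pos
  refine ⟨1 + ∑ n ∈ Finset.Icc (-(M : ℤ)) M, ‖c n‖, fun n => ?_⟩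
  have h0 : 0 ≤ ∑ n ∈ Finset.Icc (-(M : ℤ)) M, ‖c n‖ := Finset.sum_nonneg fun _ _ => norm_nonneg _
  by_cases hn : M ≤ n.natAbs
  · have := hM n hn
    linarith
  · have h1 : n ∈ Finset.Icc (-(M : ℤ)) M := by
      rw [Finset.mem_Icc]
      omega
    have := Finset.single_le_sum (f := fun n => ‖c n‖) (fun _ _ => norm_nonneg _) h1
    linarith

/-- the smoothed series, equal to the second difference quotient of `F c` -/
noncomputable def D (c : ℤ → ℂ) (x t : ℝ) : ℂ := ∑' n : ℤ, c n * (u (Real.pi * n * t) : ℂ) * ex n x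

/-- the second difference -/
noncomputable def dd (c : ℤ → ℂ) (x t : ℝ) : ℂ := F c (x + t) + F c (x - t) - 2 * F c x

lemma dd_eq (c : ℤ → ℂ) {C : ℝ} (hC : ∀ n, ‖c n‖ ≤ C) {t : ℝ} (ht : t ≠ 0) (x : ℝ) :
    dd c x t = (t : ℂ) ^ 2 * D c x t := second_diff c hC ht x

lemma D_zero_of_dd (c : ℤ → ℂ) {C : ℝ} (hC : ∀ n, ‖c n‖ ≤ C) {t : ℝ} (ht : t ≠ 0) (x : ℝ)
    (h : dd c x t = 0) : D c x t = 0 := by
  rw [dd_eq c hC ht] at h
  have h1 : (t : ℂ) ^ 2 ≠ 0 := by
    have : (t : ℂ) ≠ 0 := by exact_mod_cast ht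
    positivity
  exact (mul_eq_zero.1 h).resolve_left h1

lemma dd_zero_of_D (c : ℤ → ℂ) {C : ℝ} (hC : ∀ n, ‖c n‖ ≤ C) {t : ℝ} (ht : t ≠ 0) (x : ℝ)
    (h : D c x t = 0) : dd c x t = 0 := by
  rw [dd_eq c hC ht, h, mul_zero]

/-- bounded form of Riemann's theorem -/
lemma dd_bounded (c : ℤ → ℂ) {C : ℝ} (hC : ∀ n, ‖c n‖ ≤ C) {M x : ℝ} (hM : ∀ N : ℕ, ‖S c N x‖ ≤ M)
    {t : ℝ} (ht : 0 < t) : ‖dd c x t‖ ≤ (M * (1 + 4 * Real.pi)) * t ^ 2 := by
  have hpi := Real.pi_pos
  have hM0 : 0 ≤ M := (norm_nonneg _).trans (hM 0)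
  rw [dd_eq c hC ht.ne', norm_mul, norm_pow, Complex.norm_real, Real.norm_eq_abs, sq_abs, mul_comm]
  apply mul_le_mul_of_nonneg_right _ (by positivity)
  set τ : ℝ := Real.pi * t with hτ
  have hτ0 : 0 < τ := by positivity
  have hlim := tendsto_Icc (summable_u c hC ht.ne' x)
  refine le_of_tendsto hlim.norm (Eventually.of_forall fun N => ?_)
  rw [sum_sym]
  have e1 : ∑ k ∈ Finset.range (N + 1), sym (fun n : ℤ => c n * (u (Real.pi * n * t) : ℂ) * ex n x) k =
      ∑ k ∈ Finset.range (N + 1), sym (fun n => c n * ex n x) k * (u (k * τ) : ℂ) := by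
    apply Finset.sum_congr rfl
    intro k _
    have hu : ∀ n : ℤ, u (Real.pi * n * t) = u (n * τ) := by
      intro n
      congr 1
      rw [hτ]; ring
    simp only [hu]
    cases k with
    | zero => simp [sym, u_zero]
    | succ k =>
      simp only [sym]
      have h2 : u (((-((k : ℤ) + 1) : ℤ) : ℝ) * τ) = u (((k + 1 : ℕ) : ℝ) * τ) := by
        rw [← u_neg]
        congr 1
        push_cast
        ring
      have h3 : u ((((k : ℤ) + 1 : ℤ) : ℝ) * τ) = u (((k + 1 : ℕ) : ℝ) * τ) := by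
        push_cast
        rfl
      rw [h2, h3]
      ring
  rw [e1, abel _ (fun k => (u (k * τ) : ℂ)) N]
  have hs : ∀ k : ℕ, ‖∑ j ∈ Finset.range (k + 1), sym (fun n => c n * ex n x) j‖ ≤ M := by
    intro k
    rw [← S_eq]
    exact hM k
  refine (norm_add_le _ _).trans ?_
  rw [mul_add, mul_one]
  apply add_le_add
  · rw [norm_mul, Complex.norm_real, Real.norm_eq_abs, abs_of_nonneg (u_nonneg _)]
    calc _ ≤ M * 1 := mul_le_mul (hs N) (u_le_one _) (u_nonneg _) hM0
      _ = M := mul_one _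
  · refine (norm_sum_le _ _).trans ?_
    calc _ ≤ ∑ k ∈ Finset.range N, M * |u (k * τ) - u (((k + 1 : ℕ) : ℝ) * τ)| := by
          apply Finset.sum_le_sum
          intro k _
          rw [norm_mul, ← Complex.ofReal_sub, Complex.norm_real, Real.norm_eq_abs]
          exact mul_le_mul_of_nonneg_right (hs k) (abs_nonneg _)
      _ = M * ∑ k ∈ Finset.range N, |u (k * τ) - u (((k + 1 : ℕ) : ℝ) * τ)| := by
          rw [Finset.mul_sum]
      _ ≤ _ := mul_le_mul_of_nonneg_left (u_total hτ0 N) hM0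

/-- **Maximum principle**, one sided. -/
theorem maxprin {g : ℝ → ℝ} (hg : Continuous g) {x h : ℝ} (hh : 0 < h)
    (Hg : ∀ y ∈ Set.Ioo (x - h) (x + h), ∀ ε : ℝ, 0 < ε → ∃ δ : ℝ, 0 < δ ∧ ∀ t : ℝ, 0 < t → t < δ →
      -(ε * t ^ 2) ≤ g (y + t) + g (y - t) - 2 * g y) :
    0 ≤ g (x + h) + g (x - h) - 2 * g x := by
  by_contra hcon
  push Not at hcon
  set d : ℝ := g x - (g (x + h) + g (x - h)) / 2 with hd
  have hd0 : 0 < d := by linarith
  set e : ℝ := d / (2 * h ^ 2) with he
  have he0 : 0 < e := by positivity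
  let G : ℝ → ℝ := fun y => g y - ((g (x + h) + g (x - h)) / 2 +
    (g (x + h) - g (x - h)) / (2 * h) * (y - x)) + e * ((y - x) ^ 2 - h ^ 2)
  have hGc : Continuous G := by
    simp only [G]
    fun_prop
  have hG1 : G (x + h) = 0 := by
    simp only [G]
    field_simp
    ring
  have hG2 : G (x - h) = 0 := by
    simp only [G]
    field_simp
    ring
  have hGx : 0 < G x := by
    simp only [G, sub_self, mul_zero, add_zero]
    have : e * (0 ^ 2 - h ^ 2) = -(d / 2) := by
      rw [he]; field_simp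
      norm_num
    rw [this, ← hd]
    linarith
  obtain ⟨y, hy, hmax⟩ := (isCompact_Icc (a := x - h) (b := x + h)).exists_isMaxOn
    ⟨x, by constructor <;> linarith⟩ hGc.continuousOn
  have hyx : G x ≤ G y := hmax (show x ∈ Set.Icc (x - h) (x + h) by constructor <;> linarith)
  have hy' : y ∈ Set.Ioo (x - h) (x + h) := by
    refine ⟨lt_of_le_of_ne hy.1 ?_, lt_of_le_of_ne hy.2 ?_⟩
    · intro hc
      rw [← hc, hG2] at hyx
      linarith
    · intro hc
      rw [hc, hG1] at hyx
      linarith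
  obtain ⟨δ, hδ, hδ'⟩ := Hg y hy' e he0
  set t : ℝ := min (δ / 2) (min (y - (x - h)) (x + h - y)) with ht
  have ht0 : 0 < t := by
    have h1 : 0 < y - (x - h) := by linarith [hy'.1]
    have h2 : 0 < x + h - y := by linarith [hy'.2]
    exact lt_min (by positivity) (lt_min h1 h2)
  have htδ : t < δ := lt_of_le_of_lt (min_le_left _ _) (by linarith)
  have ht1 : t ≤ y - (x - h) := (min_le_right _ _).trans (min_le_left _ _)
  have ht2 : t ≤ x + h - y := (min_le_right _ _).trans (min_le_right _ _)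
  have h1 : G (y + t) ≤ G y := hmax ⟨by linarith, by linarith⟩
  have h2 : G (y - t) ≤ G y := hmax ⟨by linarith, by linarith⟩
  have h3 : G (y + t) + G (y - t) - 2 * G y =
      (g (y + t) + g (y - t) - 2 * g y) + 2 * e * t ^ 2 := by
    simp only [G]
    ring
  have h4 := hδ' t ht0 htδ
  have h5 : 0 < e * t ^ 2 := by positivity
  nlinarith

/-- the tent function as a second difference -/
lemma tent_eq (y s t : ℝ) (ht : 0 < t) :
    max (y + t - s) 0 + max (y - t - s) 0 - 2 * max (y - s) 0 = max (t - |y - s|) 0 := by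
  rcases le_total 0 (y - s) with h | h
  · rw [abs_of_nonneg h, max_eq_left h, max_eq_left (by linarith : 0 ≤ y + t - s)]
    rcases le_total 0 (y - t - s) with h1 | h1
    · rw [max_eq_left h1, max_eq_right (by linarith)]; ring
    · rw [max_eq_right h1, max_eq_left (by linarith)]; ring
  · rw [abs_of_nonpos h, max_eq_right h, max_eq_right (by linarith : y - t - s ≤ 0)]
    rcases le_total 0 (y + t - s) with h1 | h1
    · rw [max_eq_left h1, max_eq_left (by linarith)]; ring
    · rw [max_eq_right h1, max_eq_right (by linarith)]; ring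

lemma int_tent (y t : ℝ) (ht : 0 < t) : ∫ s in (y - t)..(y + t), max (t - |y - s|) 0 = t ^ 2 := by
  have hc : Continuous fun s : ℝ => max (t - |y - s|) 0 := by fun_prop
  rw [← intervalIntegral.integral_add_adjacent_intervals (b := y) (hc.intervalIntegrable _ _)
    (hc.intervalIntegrable _ _)]
  have e1 : ∫ s in (y - t)..y, max (t - |y - s|) 0 = ∫ s in (y - t)..y, (s - (y - t)) := by
    apply intervalIntegral.integral_congr
    intro s hs
    rw [Set.uIcc_of_le (by linarith)] at hs
    show max (t - |y - s|) 0 = s - (y - t)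
    rw [abs_of_nonneg (by linarith [hs.2]), max_eq_left (by linarith [hs.1])]
    ring
  have e2 : ∫ s in y..(y + t), max (t - |y - s|) 0 = ∫ s in y..(y + t), ((y + t) - s) := by
    apply intervalIntegral.integral_congr
    intro s hs
    rw [Set.uIcc_of_le (by linarith)] at hs
    show max (t - |y - s|) 0 = (y + t) - s
    rw [abs_of_nonpos (by linarith [hs.1]), max_eq_left (by linarith [hs.2])]
    ring
  have e3 : ∫ s in (y - t)..y, (s - (y - t)) = t ^ 2 / 2 := by
    rw [intervalIntegral.integral_sub (by simp) (by simp), integral_id,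
      intervalIntegral.integral_const, smul_eq_mul]
    ring
  have e4 : ∫ s in y..(y + t), ((y + t) - s) = t ^ 2 / 2 := by
    rw [intervalIntegral.integral_sub (by simp) (by simp), integral_id,
      intervalIntegral.integral_const, smul_eq_mul]
    ring
  rw [e1, e2, e3, e4]
  ring

/-- the second primitive of the indicator function of a bounded set `V` -/
noncomputable def prim (V : Set ℝ) (y : ℝ) : ℝ := ∫ s in V, max (y - s) 0

lemma prim_integrable {V : Set ℝ} {a b : ℝ} (hV : V ⊆ Set.Icc a b) {f : ℝ → ℝ} (hf : Continuous f) :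
    IntegrableOn f V := (hf.integrableOn_Icc (a := a) (b := b)).mono_set hV

lemma prim_dd {V : Set ℝ} {a b : ℝ} (hV : V ⊆ Set.Icc a b) (y t : ℝ) (ht : 0 < t) :
    prim V (y + t) + prim V (y - t) - 2 * prim V y = ∫ s in V, max (t - |y - s|) 0 := by
  unfold prim
  have i1 : IntegrableOn (fun s => max (y + t - s) 0) V := prim_integrable hV (by fun_prop)
  have i2 : IntegrableOn (fun s => max (y - t - s) 0) V := prim_integrable hV (by fun_prop)
  have i3 : IntegrableOn (fun s => 2 * max (y - s) 0) V := prim_integrable hV (by fun_prop)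
  have i12 : IntegrableOn (fun s => max (y + t - s) 0 + max (y - t - s) 0) V := i1.add i2
  rw [← integral_const_mul, ← integral_add i1 i2, ← integral_sub i12 i3]
  apply integral_congr_ae
  refine ae_of_all _ fun s => ?_
  exact tent_eq y s t ht

lemma prim_cont {V : Set ℝ} {a b : ℝ} (hV : V ⊆ Set.Icc a b) : Continuous (prim V) := by
  have hfin : volume V < ⊤ := lt_of_le_of_lt (measure_mono hV) (by simp)
  have : IsFiniteMeasure (volume.restrict V) := ⟨by rw [Measure.restrict_apply_univ]; exact hfin⟩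
  apply LipschitzWith.continuous (K := (volume V).toNNReal)
  apply LipschitzWith.of_dist_le_mul
  intro y y'
  rw [Real.dist_eq, Real.dist_eq]
  unfold prim
  have i1 : IntegrableOn (fun s => max (y - s) 0) V := prim_integrable hV (by fun_prop)
  have i2 : IntegrableOn (fun s => max (y' - s) 0) V := prim_integrable hV (by fun_prop)
  rw [← integral_sub i1 i2]
  have h1 := norm_integral_le_of_norm_le_const (μ := volume.restrict V)
    (f := fun s => max (y - s) 0 - max (y' - s) 0) (C := |y - y'|) (ae_of_all _ fun s => by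
      rw [Real.norm_eq_abs]
      have := abs_max_sub_max_le_abs (y - s) (y' - s) 0
      rwa [sub_sub_sub_cancel_right] at this)
  rw [Real.norm_eq_abs] at h1
  refine h1.trans (le_of_eq ?_)
  rw [mul_comm]
  congr 1
  rw [Measure.real, Measure.restrict_apply_univ]
  rfl

/-- **De la Vallée-Poussin**, bounded case: a continuous function whose second difference quotients
are locally bounded by `K` and tend to zero outside a null set has vanishing second differences. -/
theorem dlvp {f : ℝ → ℝ} (hf : Continuous f) {x h K : ℝ} (hh : 0 < h) (hK : 0 ≤ K) {E : Set ℝ}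
    (hE : volume E = 0)
    (hb : ∀ y ∈ Set.Ioo (x - h) (x + h), ∃ δ : ℝ, 0 < δ ∧ ∀ t : ℝ, 0 < t → t < δ →
      |f (y + t) + f (y - t) - 2 * f y| ≤ K * t ^ 2)
    (h0 : ∀ y ∈ Set.Ioo (x - h) (x + h), y ∉ E → ∀ ε : ℝ, 0 < ε → ∃ δ : ℝ, 0 < δ ∧ ∀ t : ℝ,
      0 < t → t < δ → |f (y + t) + f (y - t) - 2 * f y| ≤ ε * t ^ 2) :
    f (x + h) + f (x - h) - 2 * f x = 0 := by
  have key : ∀ g : ℝ → ℝ, Continuous g → (∀ y ∈ Set.Ioo (x - h) (x + h), ∃ δ : ℝ, 0 < δ ∧
      ∀ t : ℝ, 0 < t → t < δ → |g (y + t) + g (y - t) - 2 * g y| ≤ K * t ^ 2) →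
      (∀ y ∈ Set.Ioo (x - h) (x + h), y ∉ E → ∀ ε : ℝ, 0 < ε → ∃ δ : ℝ, 0 < δ ∧ ∀ t : ℝ,
        0 < t → t < δ → |g (y + t) + g (y - t) - 2 * g y| ≤ ε * t ^ 2) →
      0 ≤ g (x + h) + g (x - h) - 2 * g x := by
    intro g hg hgb hg0
    apply le_of_forall_pos_le_add
    intro ε hε
    -- an open set of small measure
    set η : ℝ := ε / (K * h + 1) with hη
    have hKh : 0 < K * h + 1 := by positivity
    have hη0 : 0 < η := by positivity
    obtain ⟨U, hEU, hUo, hU⟩ := E.exists_isOpen_lt_of_lt (μ := volume) (ENNReal.ofReal η) (by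
      rw [hE]
      exact ENNReal.ofReal_pos.2 hη0)
    set V : Set ℝ := U ∩ Set.Ioo (x - h) (x + h) with hVdef
    have hVo : IsOpen V := hUo.inter isOpen_Ioo
    have hVI : V ⊆ Set.Icc (x - h) (x + h) := fun y hy => Set.Ioo_subset_Icc_self hy.2
    have hVm : (volume V).toReal ≤ η := by
      have h1 : volume V ≤ ENNReal.ofReal η := (measure_mono Set.inter_subset_left).trans hU.le
      have h2 := ENNReal.toReal_mono ENNReal.ofReal_ne_top h1
      rwa [ENNReal.toReal_ofReal hη0.le] at h2
    have hpos : ∀ y t : ℝ, 0 < t → 0 ≤ prim V (y + t) + prim V (y - t) - 2 * prim V y := by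
      intro y t ht
      rw [prim_dd hVI y t ht]
      exact integral_nonneg fun s => le_max_right _ _
    have hup : prim V (x + h) + prim V (x - h) - 2 * prim V x ≤ h * η := by
      rw [prim_dd hVI x h hh]
      have h1 := norm_setIntegral_le_of_norm_le_const (μ := volume) (s := V)
        (f := fun s => max (h - |x - s|) 0) (C := h)
        (lt_of_le_of_lt (measure_mono hVI) (by simp)) (by
          intro s _
          rw [Real.norm_eq_abs, abs_of_nonneg (le_max_right _ _)]
          exact max_le (by linarith [abs_nonneg (x - s)]) hh.le)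
      refine (le_abs_self _).trans (h1.trans ?_)
      exact mul_le_mul_of_nonneg_left hVm hh.le
    have hin : ∀ y t : ℝ, 0 < t → Set.Ioo (y - t) (y + t) ⊆ V →
        prim V (y + t) + prim V (y - t) - 2 * prim V y = t ^ 2 := by
      intro y t ht hsub
      rw [prim_dd hVI y t ht]
      apply le_antisymm
      · have h1 : ∫ s in V, max (t - |y - s|) 0 = ∫ s in Set.Ioc (y - t) (y + t), max (t - |y - s|) 0 := by
          rw [integral_Ioc_eq_integral_Ioo]
          apply (setIntegral_eq_of_subset_of_forall_sdiff_eq_zero hVo.measurableSet hsub _)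
          intro s hs
          have hs2 : ¬ (y - t < s ∧ s < y + t) := hs.2
          apply max_eq_right
          by_contra hc
          push Not at hc
          have := abs_lt.1 (by linarith : |y - s| < t)
          exact hs2 ⟨by linarith [this.2], by linarith [this.1]⟩
        rw [h1, ← intervalIntegral.integral_of_le (by linarith), int_tent y t ht]
      · have h1 : ∫ s in V, max (t - |y - s|) 0 = ∫ s in Set.Ioc (y - t) (y + t), max (t - |y - s|) 0 := by
          rw [integral_Ioc_eq_integral_Ioo]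
          apply (setIntegral_eq_of_subset_of_forall_sdiff_eq_zero hVo.measurableSet hsub _)
          intro s hs
          have hs2 : ¬ (y - t < s ∧ s < y + t) := hs.2
          apply max_eq_right
          by_contra hc
          push Not at hc
          have := abs_lt.1 (by linarith : |y - s| < t)
          exact hs2 ⟨by linarith [this.2], by linarith [this.1]⟩
        rw [h1, ← intervalIntegral.integral_of_le (by linarith), int_tent y t ht]
    -- the convexified function
    have hG := maxprin (g := fun y => g y + K * prim V y)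
      (hg.add (continuous_const.mul (prim_cont hVI))) hh (by
      intro y hy e he
      by_cases hyV : y ∈ V
      · obtain ⟨r, hr, hrV⟩ := Metric.isOpen_iff.1 hVo y hyV
        obtain ⟨δ, hδ, hδ'⟩ := hgb y hy
        refine ⟨min δ r, lt_min hδ hr, fun t ht htδ => ?_⟩
        have h1 := hin y t ht (by
          intro s hs
          apply hrV
          rw [Metric.mem_ball, Real.dist_eq, abs_lt]
          have := lt_of_lt_of_le htδ (min_le_right _ _)
          constructor <;> linarith [hs.1, hs.2])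
        have h2 := (abs_le.1 (hδ' t ht (lt_of_lt_of_le htδ (min_le_left _ _)))).1
        have h3 : g (y + t) + K * prim V (y + t) + (g (y - t) + K * prim V (y - t)) -
            2 * (g y + K * prim V y) = (g (y + t) + g (y - t) - 2 * g y) +
            K * (prim V (y + t) + prim V (y - t) - 2 * prim V y) := by ring
        rw [h3, h1]
        have h4 : 0 < e * t ^ 2 := by positivity
        linarith
      · have hyE : y ∉ E := fun hc => hyV ⟨hEU hc, hy⟩
        obtain ⟨δ, hδ, hδ'⟩ := hg0 y hy hyE e he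
        refine ⟨δ, hδ, fun t ht htδ => ?_⟩
        have h2 := (abs_le.1 (hδ' t ht htδ)).1
        have h3 : g (y + t) + K * prim V (y + t) + (g (y - t) + K * prim V (y - t)) -
            2 * (g y + K * prim V y) = (g (y + t) + g (y - t) - 2 * g y) +
            K * (prim V (y + t) + prim V (y - t) - 2 * prim V y) := by ring
        rw [h3]
        have h4 := mul_nonneg hK (hpos y t ht)
        linarith)
    have h3 : g (x + h) + K * prim V (x + h) + (g (x - h) + K * prim V (x - h)) -
        2 * (g x + K * prim V x) = (g (x + h) + g (x - h) - 2 * g x) +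
        K * (prim V (x + h) + prim V (x - h) - 2 * prim V x) := by ring
    rw [h3] at hG
    have h4 := mul_le_mul_of_nonneg_left hup hK
    have h5 : K * (h * η) ≤ ε := by
      rw [hη, mul_div_assoc', mul_div_assoc', div_le_iff₀ hKh]
      nlinarith
    linarith
  have h1 := key f hf hb h0
  have h2 := key (fun y => -f y) hf.neg (by
    intro y hy
    obtain ⟨δ, hδ, hδ'⟩ := hb y hy
    refine ⟨δ, hδ, fun t ht htδ => ?_⟩
    have := hδ' t ht htδ
    rw [← abs_neg] at this
    convert! this using 2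
    ring) (by
    intro y hy hyE ε hε
    obtain ⟨δ, hδ, hδ'⟩ := h0 y hy hyE ε hε
    refine ⟨δ, hδ, fun t ht htδ => ?_⟩
    have := hδ' t ht htδ
    rw [← abs_neg] at this
    convert! this using 2
    ring)
  linarith

end Pool.Agent.TH723.BR
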