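import Mathlib
import Pool.Agent.TH723.BR.Cantor

set_option autoImplicit false

/-!
Localised form of Rajchman's theorem on sets of type H.
-/

namespace Pool.Agent.TH723.BR

open Filter Topology MeasureTheory
open Pool.Agent.TH275.UQ

/-! ### The Fourier series of a tent -/

lemma F_one {x : ℝ} (hx : x ∈ Set.Icc (0 : ℝ) 1) : F (fun _ => 1) x = ((x / 2 - 1 / 12 : ℝ) : ℂ) := by
  have h1 := hasSum_one_div_pow_mul_fourier_mul_bernoulliFun (k := 2) le_rfl hx
  have h2 : ∀ n : ℤ, g (fun _ => 1) n * ex n x =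
      (-1 / (4 * (Real.pi : ℂ) ^ 2)) * (1 / (n : ℂ) ^ 2 * fourier n (x : UnitAddCircle)) := by
    intro n
    rw [fourier_coe_apply]
    unfold g ex
    have e1 : 2 * (Real.pi : ℂ) * Complex.I * n * x / ((1 : ℝ) : ℂ) = 2 * (Real.pi : ℂ) * Complex.I * n * x := by
      push_cast
      rw [div_one]
    rw [e1]
    by_cases hn : n = 0
    · subst hn
      simp
    · have hn' : (n : ℂ) ≠ 0 := by exact_mod_cast hn
      have hpi : (Real.pi : ℂ) ≠ 0 := by exact_mod_cast Real.pi_ne_zero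
      field_simp
  have h3 : ∑' n : ℤ, g (fun _ => 1) n * ex n x =
      (-1 / (4 * (Real.pi : ℂ) ^ 2)) * (-(2 * (Real.pi : ℂ) * Complex.I) ^ 2 / (Nat.factorial 2 : ℂ) *
        bernoulliFun 2 x) := by
    simp_rw [h2]
    rw [tsum_mul_left]
    congr 1
    exact h1.tsum_eq
  unfold F
  rw [h3, bernoulliFun_two]
  have hpi : (Real.pi : ℂ) ≠ 0 := by exact_mod_cast Real.pi_ne_zero
  have hI : Complex.I ^ 2 = -1 := Complex.I_sq
  rw [mul_pow, hI]
  push_cast
  simp only [Nat.factorial]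
  field_simp
  ring

lemma tent_zero {h y : ℝ} (h0 : 0 < h) (h1 : h ≤ y) (h2 : y ≤ 1 - h) :
    ∑' n : ℤ, (u (Real.pi * n * h) : ℂ) * ex n y = 0 := by
  have hC : ∀ n : ℤ, ‖(fun _ : ℤ => (1 : ℂ)) n‖ ≤ 1 := fun n => by simp
  have h3 := second_diff (fun _ => 1) hC h0.ne' y
  rw [F_one (x := y + h) ⟨by linarith, by linarith⟩, F_one (x := y - h) ⟨by linarith, by linarith⟩,
    F_one (x := y) ⟨by linarith, by linarith⟩] at h3
  have h4 : (((y + h) / 2 - 1 / 12 : ℝ) : ℂ) + (((y - h) / 2 - 1 / 12 : ℝ) : ℂ) -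
      2 * ((y / 2 - 1 / 12 : ℝ) : ℂ) = 0 := by
    push_cast
    ring
  rw [h4] at h3
  simp only [one_mul] at h3
  have h5 : (h : ℂ) ^ 2 ≠ 0 := by
    have : (h : ℂ) ≠ 0 := by exact_mod_cast h0.ne'
    positivity
  exact (mul_eq_zero.1 h3.symm).resolve_left h5

lemma ex_add_int (n m : ℤ) (x : ℝ) : ex n (x + m) = ex n x := by
  rw [ex_add_right, ex_int, mul_one]

/-- the normalised periodic tent of width `h` -/
noncomputable def tent (h y : ℝ) : ℂ := ∑' n : ℤ, (u (Real.pi * n * h) : ℂ) * ex n y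

lemma tent_add_int (h y : ℝ) (m : ℤ) : tent h (y + m) = tent h y := by
  unfold tent
  simp_rw [ex_add_int]

lemma tent_eq_zero {h y : ℝ} (h0 : 0 < h) (hy : h ≤ |y - round y|) : tent h y = 0 := by
  have h1 : y = Int.fract y + (⌊y⌋ : ℤ) := (Int.fract_add_floor y).symm
  rw [h1, tent_add_int]
  rw [abs_sub_round_eq_min] at hy
  have h2 := (le_min_iff.1 hy)
  exact tent_zero h0 h2.1 (by linarith [h2.2])

lemma summable_tent {h : ℝ} (h0 : 0 < h) : Summable fun n : ℤ => u (Real.pi * n * h) := by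
  have hC : ∀ n : ℤ, ‖(fun _ : ℤ => (1 : ℂ)) n‖ ≤ 1 := fun n => by simp
  have h1 := (summable_u (fun _ => 1) hC h0.ne' 0).norm
  refine h1.congr fun n => ?_
  rw [one_mul, ex_zero_right, mul_one, Complex.norm_real, Real.norm_eq_abs, abs_of_nonneg (u_nonneg _)]

lemma D_add_int (c : ℤ → ℂ) (x t : ℝ) (m : ℤ) : D c (x + m) t = D c x t := by
  unfold D
  simp_rw [ex_add_int]

/-! ### The identity along an arithmetic progression -/

/-- the sum of the coefficients along a residue class -/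
noncomputable def T (c : ℤ → ℂ) (ρ θ : ℝ) (q : ℕ) (l : ℤ) : ℂ :=
  ∑' m : ℤ, c (l + q * m) * (u (Real.pi * ((l : ℝ) / q + m) * ρ) : ℂ) * ex m θ

lemma prog_id (c : ℤ → ℂ) {C : ℝ} (hC : ∀ n, ‖c n‖ ≤ C) {ρ θ : ℝ} (hρ : 0 < ρ) (q : ℕ) (hq : 0 < q)
    (l : ℤ) :
    ∑ j ∈ Finset.range q, ex (-l) ((θ + j) / q) * D c ((θ + j) / q) (ρ / q) = q * T c ρ θ q l := by
  have hqr : (0 : ℝ) < q := by exact_mod_cast hq
  set h : ℝ := ρ / q with hh
  have hh0 : 0 < h := by positivity
  have hsum : ∑ j ∈ Finset.range q, ex (-l) ((θ + j) / q) * D c ((θ + j) / q) h =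
      ∑' n : ℤ, c n * (u (Real.pi * n * h) : ℂ) *
      (if (q : ℤ) ∣ (n - l) then (q : ℂ) * ex (n - l) (θ / q) else 0) := by
    unfold D
    simp_rw [← tsum_mul_left]
    rw [← Summable.tsum_finsetSum fun j _ => (summable_u c hC hh0.ne' _).mul_left _]
    congr 1
    ext n
    rw [← geom (n - l) q hq θ, Finset.mul_sum]
    apply Finset.sum_congr rfl
    intro j _
    rw [sub_eq_add_neg, ex_add_left]
    ring
  have hinj : Function.Injective fun m : ℤ => l + q * m := by
    intro a b hab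
    have hab' : l + q * a = l + q * b := hab
    have h1 : (q : ℤ) * a = q * b := by linarith
    exact mul_left_cancel₀ (by exact_mod_cast hq.ne') h1
  have hre := hinj.tsum_eq (f := fun n : ℤ => c n * (u (Real.pi * n * h) : ℂ) *
      (if (q : ℤ) ∣ (n - l) then (q : ℂ) * ex (n - l) (θ / q) else 0)) (by
    intro n hn
    rw [Function.mem_support] at hn
    by_cases hd : (q : ℤ) ∣ (n - l)
    · obtain ⟨m, hm⟩ := hd
      exact ⟨m, by show l + q * m = n; linarith⟩
    · exfalso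
      apply hn
      simp only [if_neg hd, mul_zero])
  rw [hsum, ← hre]
  have hterm : ∀ m : ℤ, c (l + q * m) * (u (Real.pi * ((l + q * m : ℤ) : ℝ) * h) : ℂ) *
      (if (q : ℤ) ∣ (l + q * m - l) then (q : ℂ) * ex (l + q * m - l) (θ / q) else 0) =
      q * (c (l + q * m) * (u (Real.pi * ((l : ℝ) / q + m) * ρ) : ℂ) * ex m θ) := by
    intro m
    have e1 : l + q * m - l = q * m := by ring
    rw [e1, if_pos (dvd_mul_right _ _)]
    have e2 : ex (q * m) (θ / q) = ex m θ := by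
      rw [ex_eq, ex_eq]
      congr 3
      push_cast
      field_simp
    have e3 : Real.pi * ((l + q * m : ℤ) : ℝ) * h = Real.pi * ((l : ℝ) / q + m) * ρ := by
      rw [hh]
      push_cast
      field_simp
    rw [e2, e3]
    ring
  simp_rw [hterm]
  rw [tsum_mul_left]
  rfl

/-! ### Bounds -/

/-- summable majorant -/
noncomputable def maj (ρ : ℝ) (m : ℤ) : ℝ := 4 / (Real.pi ^ 2 * ρ ^ 2) * (1 / (m : ℝ) ^ 2) + (if m = 0 then 1 else 0)

lemma maj_summable (ρ : ℝ) : Summable (maj ρ) := by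
  apply Summable.add
  · exact ((Real.summable_one_div_int_pow (p := 2)).2 (by norm_num)).mul_left _
  · exact (hasSum_ite_eq 0 1).summable

lemma u_le_maj {ρ r : ℝ} (hρ : 0 < ρ) (hr : |r| ≤ 1 / 2) (m : ℤ) :
    u (Real.pi * (r + m) * ρ) ≤ maj ρ m := by
  have hpi := Real.pi_pos
  unfold maj
  by_cases hm : m = 0
  · rw [if_pos hm]
    have h1 := u_le_one (Real.pi * (r + m) * ρ)
    have h2 : 0 ≤ 4 / (Real.pi ^ 2 * ρ ^ 2) * (1 / (m : ℝ) ^ 2) := by positivity
    linarith
  · rw [if_neg hm, add_zero]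
    have hm1 : (1 : ℝ) ≤ |(m : ℝ)| := by exact_mod_cast Int.one_le_abs hm
    have h3 : |(m : ℝ)| / 2 ≤ |r + m| := by
      have h4 : |(m : ℝ)| ≤ |r + m| + |r| := by
        have := abs_sub (r + m) r
        rwa [add_sub_cancel_left] at this
      linarith
    have hmne : (m : ℝ) ≠ 0 := by exact_mod_cast hm
    have hne : r + m ≠ 0 := by
      intro hc
      rw [hc, abs_zero] at h3
      linarith
    refine (u_le_inv (by positivity)).trans ?_
    rw [div_mul_div_comm, mul_one]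
    rw [div_le_div_iff₀ (by positivity) (by positivity), one_mul]
    have h5 : (m : ℝ) ^ 2 / 4 ≤ (r + m) ^ 2 := by
      rw [← sq_abs (m : ℝ), ← sq_abs (r + m)]
      have : (|(m : ℝ)| / 2) ^ 2 ≤ |r + m| ^ 2 := by gcongr
      linarith
    have h6 : 0 ≤ Real.pi ^ 2 * ρ ^ 2 := by positivity
    have h7 : 4 * (Real.pi * (r + m) * ρ) ^ 2 = Real.pi ^ 2 * ρ ^ 2 * (4 * (r + m) ^ 2) := by ring
    rw [h7]
    exact mul_le_mul_of_nonneg_left (by linarith) h6

lemma shift_bound {ρ : ℝ} (hρ : 0 < ρ) (y : ℝ) :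
    Summable (fun m : ℤ => u (Real.pi * (y + m) * ρ)) ∧
      ∑' m : ℤ, u (Real.pi * (y + m) * ρ) ≤ ∑' m : ℤ, maj ρ m := by
  have hr : |y - round y| ≤ 1 / 2 := abs_sub_round y
  have h1 : Summable fun m : ℤ => u (Real.pi * ((y - round y) + m) * ρ) :=
    Summable.of_nonneg_of_le (fun m => u_nonneg _) (fun m => u_le_maj hρ hr m) (maj_summable ρ)
  have h2 : (fun m : ℤ => u (Real.pi * (y + m) * ρ)) =
      (fun m : ℤ => u (Real.pi * ((y - round y) + m) * ρ)) ∘ (Equiv.addRight (round y)) := by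
    ext m
    simp only [Function.comp_apply, Equiv.coe_addRight]
    congr 1
    push_cast
    ring
  rw [h2]
  refine ⟨(Equiv.addRight (round y)).summable_iff.2 h1, ?_⟩
  refine (le_of_eq ((Equiv.addRight (round y)).tsum_eq
    (fun m : ℤ => u (Real.pi * ((y - round y) + m) * ρ)))).trans ?_
  exact Summable.tsum_le_tsum (fun m => u_le_maj hρ hr m) h1 (maj_summable ρ)

lemma T_bound (c : ℤ → ℂ) {C : ℝ} (hC : ∀ n, ‖c n‖ ≤ C) {ρ θ : ℝ} (hρ : 0 < ρ) (q : ℕ) (l : ℤ) :
    ‖T c ρ θ q l‖ ≤ C * ∑' m : ℤ, maj ρ m := by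
  have hC0 : 0 ≤ C := (norm_nonneg _).trans (hC 0)
  obtain ⟨h1, h2⟩ := shift_bound hρ ((l : ℝ) / q)
  unfold T
  have h3 : ∀ m : ℤ, ‖c (l + q * m) * (u (Real.pi * ((l : ℝ) / q + m) * ρ) : ℂ) * ex m θ‖ ≤
      C * u (Real.pi * ((l : ℝ) / q + m) * ρ) := by
    intro m
    rw [norm_mul, norm_mul, ex_norm, mul_one, Complex.norm_real, Real.norm_eq_abs,
      abs_of_nonneg (u_nonneg _)]
    exact mul_le_mul_of_nonneg_right (hC _) (u_nonneg _)
  refine (tsum_of_norm_bounded (h1.mul_left C).hasSum h3).trans ?_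
  rw [tsum_mul_left]
  exact mul_le_mul_of_nonneg_left h2 hC0

lemma T_lim (c : ℤ → ℂ) {C : ℝ} (hC : ∀ n, ‖c n‖ ≤ C)
    (hs : ∀ ε : ℝ, 0 < ε → ∃ M : ℕ, ∀ n : ℤ, M ≤ n.natAbs → ‖c n‖ ≤ ε)
    {ρ θ : ℝ} (hρ : 0 < ρ) {q : ℕ → ℕ} (hq : Tendsto q atTop atTop) (l : ℤ) :
    Tendsto (fun k => T c ρ θ (q k) l) atTop (𝓝 (c l)) := by
  have hC0 : 0 ≤ C := (norm_nonneg _).trans (hC 0)
  have hqr : Tendsto (fun k => (q k : ℝ)) atTop atTop := tendsto_natCast_atTop_atTop.comp hq
  have hlim : Tendsto (fun k => T c ρ θ (q k) l) atTop (𝓝 (∑' m : ℤ, if m = 0 then c l else 0)) := by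
    refine tendsto_tsum_of_dominated_convergence ((maj_summable ρ).mul_left C) ?_ ?_
    · intro m
      by_cases hm : m = 0
      · subst hm
        simp only [mul_zero, add_zero, Int.cast_zero, ex_zero, mul_one, if_true]
        have h2 : Tendsto (fun k => (l : ℝ) / (q k : ℝ)) atTop (𝓝 0) := hqr.const_div_atTop (l : ℝ)
        have h3 := (h2.const_mul Real.pi).mul_const ρ
        rw [mul_zero, zero_mul] at h3
        have h4 := (u_cont.tendsto 0).comp h3
        rw [u_zero] at h4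
        have h5 : Tendsto (fun k => (u (Real.pi * ((l : ℝ) / (q k : ℝ)) * ρ) : ℂ)) atTop
            (𝓝 ((1 : ℝ) : ℂ)) := (Complex.continuous_ofReal.tendsto 1).comp h4
        have h6 := h5.const_mul (c l)
        simpa using h6
      · rw [if_neg hm]
        rw [Metric.tendsto_atTop]
        intro ε hε
        obtain ⟨M, hM⟩ := hs (ε / 2) (by positivity)
        obtain ⟨K, hK⟩ := eventually_atTop.1 (hq.eventually_ge_atTop (M + l.natAbs))
        refine ⟨K, fun k hk => ?_⟩
        have h2 := hK k hk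
        have h3 : M ≤ (l + (q k : ℕ) * m).natAbs := by
          have h4 : (q k : ℕ) ≤ ((q k : ℕ) * m).natAbs := by
            rw [Int.natAbs_mul, Int.natAbs_natCast]
            exact Nat.le_mul_of_pos_right _ (Int.natAbs_pos.2 hm)
          omega
        rw [dist_zero_right, norm_mul, norm_mul, ex_norm, mul_one, Complex.norm_real,
          Real.norm_eq_abs, abs_of_nonneg (u_nonneg _)]
        calc _ ≤ ‖c (l + (q k : ℕ) * m)‖ * 1 :=
              mul_le_mul_of_nonneg_left (u_le_one _) (norm_nonneg _)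
          _ ≤ ε / 2 := by rw [mul_one]; exact hM _ h3
          _ < ε := by linarith
    · filter_upwards [hqr.eventually_ge_atTop (2 * |(l : ℝ)| + 1)] with k hk m
      rw [norm_mul, norm_mul, ex_norm, mul_one, Complex.norm_real,
        Real.norm_eq_abs, abs_of_nonneg (u_nonneg _)]
      have hq0 : (0 : ℝ) < q k := by
        have := abs_nonneg (l : ℝ)
        linarith
      apply mul_le_mul (hC _) _ (u_nonneg _) hC0
      apply u_le_maj hρ
      rw [abs_div, abs_of_pos hq0, div_le_iff₀ hq0]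
      linarith
  rw [tsum_ite_eq] at hlim
  exact hlim

/-- **Localised Rajchman theorem.** -/
theorem local_H (c : ℤ → ℂ) {C : ℝ} (hC : ∀ n, ‖c n‖ ≤ C)
    (hs : ∀ ε : ℝ, 0 < ε → ∃ M : ℕ, ∀ n : ℤ, M ≤ n.natAbs → ‖c n‖ ≤ ε)
    {x0 h ρ θ : ℝ} (h0 : 0 < h) (hρ : 0 < ρ) {q : ℕ → ℕ}
    (hq : Tendsto q atTop atTop) (K0 : ℕ)
    (H : ∀ k, K0 ≤ k → ∀ j : ℤ, |(θ + j) / q k - x0| < h → D c ((θ + j) / q k) (ρ / q k) = 0) :
    D c x0 h = 0 := by
  have hC0 : 0 ≤ C := (norm_nonneg _).trans (hC 0)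
  set b : ℤ → ℂ := fun a => (u (Real.pi * a * h) : ℂ) * ex a (-x0) with hb
  have hbs : Summable fun a => ‖b a‖ := by
    refine (summable_tent h0).congr fun a => ?_
    rw [hb]
    simp only
    rw [norm_mul, ex_norm, mul_one, Complex.norm_real, Real.norm_eq_abs, abs_of_nonneg (u_nonneg _)]
  have hbtent : ∀ y : ℝ, tent h (y - x0) = ∑' a : ℤ, b a * ex a y := by
    intro y
    unfold tent
    congr 1
    ext a
    rw [hb]
    simp only
    rw [sub_eq_add_neg, ex_add_right]
    ring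
  -- the sum vanishes for large k
  have hz : ∀ᶠ k in atTop, ∑' a : ℤ, b a * T c ρ θ (q k) (-a) = 0 := by
    filter_upwards [eventually_ge_atTop K0, hq.eventually_ge_atTop 1] with k hk hk1
    have hqk : 0 < q k := hk1
    have hqr : (0 : ℝ) < q k := by exact_mod_cast hqk
    have e1 : ∀ j ∈ Finset.range (q k), (∑' a : ℤ, b a * ex a ((θ + j) / q k)) *
        D c ((θ + j) / q k) (ρ / q k) = 0 := by
      intro j _
      rw [← hbtent]
      by_cases hj : |(θ + j) / q k - x0 - round ((θ + j) / q k - x0)| < h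
      · -- D vanishes
        set m : ℤ := round ((θ + j) / q k - x0) with hm
        have e2 : (θ + j) / q k = (θ + ((j - q k * m : ℤ) : ℝ)) / q k + (m : ℝ) := by
          push_cast
          field_simp
          ring
        have e3 : D c ((θ + ((j - q k * m : ℤ) : ℝ)) / q k) (ρ / q k) = 0 := by
          apply H k hk
          have : (θ + ((j - q k * m : ℤ) : ℝ)) / q k - x0 = (θ + j) / q k - x0 - m := by
            rw [e2]
            ring
          rw [this]
          exact hj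
        rw [e2, D_add_int, e3, mul_zero]
      · push Not at hj
        rw [tent_eq_zero h0 hj, zero_mul]
    have e4 : ∑ j ∈ Finset.range (q k), (∑' a : ℤ, b a * ex a ((θ + j) / q k)) *
        D c ((θ + j) / q k) (ρ / q k) = 0 := Finset.sum_eq_zero e1
    simp_rw [← tsum_mul_right] at e4
    rw [← Summable.tsum_finsetSum (fun j _ => by
      apply Summable.mul_right
      refine Summable.of_norm (hbs.congr fun a => ?_)
      exact (by rw [norm_mul (b a), ex_norm, mul_one] :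
        ‖b a * ex a ((θ + j) / q k)‖ = ‖b a‖).symm)] at e4
    have e5 : ∀ a : ℤ, ∑ j ∈ Finset.range (q k), b a * ex a ((θ + j) / q k) *
        D c ((θ + j) / q k) (ρ / q k) = q k * (b a * T c ρ θ (q k) (-a)) := by
      intro a
      have := prog_id c hC hρ (θ := θ) (q k) hqk (-a)
      rw [neg_neg] at this
      calc _ = b a * ∑ j ∈ Finset.range (q k), ex a ((θ + j) / q k) *
            D c ((θ + j) / q k) (ρ / q k) := by
            rw [Finset.mul_sum]
            apply Finset.sum_congr rfl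
            intro j _
            ring
        _ = _ := by rw [this]; ring
    simp_rw [e5] at e4
    rw [tsum_mul_left] at e4
    have hqc : (q k : ℂ) ≠ 0 := by exact_mod_cast hqk.ne'
    exact (mul_eq_zero.1 e4).resolve_left hqc
  -- the limit
  have hlim : Tendsto (fun k => ∑' a : ℤ, b a * T c ρ θ (q k) (-a)) atTop
      (𝓝 (∑' a : ℤ, b a * c (-a))) := by
    refine tendsto_tsum_of_dominated_convergence
      (bound := fun a => ‖b a‖ * (C * ∑' m : ℤ, maj ρ m)) (hbs.mul_right _) ?_ ?_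
    · intro a
      exact (T_lim c hC hs hρ hq (-a)).const_mul (b a)
    · refine Eventually.of_forall fun k a => ?_
      rw [norm_mul]
      exact mul_le_mul_of_nonneg_left (T_bound c hC hρ _ _) (norm_nonneg _)
  have h3 : ∑' a : ℤ, b a * c (-a) = 0 :=
    tendsto_nhds_unique (hlim.congr' hz) tendsto_const_nhds
  unfold D
  rw [← h3, ← (Equiv.neg ℤ).tsum_eq (fun a : ℤ => b a * c (-a))]
  congr 1
  ext n
  simp only [Equiv.neg_apply, neg_neg, hb]
  have e6 : Real.pi * ((-n : ℤ) : ℝ) * h = -(Real.pi * n * h) := by push_cast; ring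
  rw [e6, u_neg]
  have e7 : ex (-n) (-x0) = ex n x0 := by
    rw [ex_neg, ex_neg_right, Complex.conj_conj]
  rw [e7]
  ring

end Pool.Agent.TH723.BR
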