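import Mathlib
import Pool.Agent.TH723.BR.Local

set_option autoImplicit false

/-!
Countable unions of sets of type H are sets of uniqueness (Rajchman, Bary).
-/

namespace Pool.Agent.TH723.BR

open Filter Topology MeasureTheory
open Pool.Agent.TH275.UQ

/-- distance to the nearest integer -/
noncomputable def nd (y : ℝ) : ℝ := |y - round y|

lemma nd_cont : Continuous nd := by
  have h : nd = fun y : ℝ => ‖(y : UnitAddCircle)‖ := by
    ext y
    rw [UnitAddCircle.norm_eq]
    rfl
  rw [h]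
  exact continuous_norm.comp (AddCircle.continuous_mk' 1)

lemma nd_le (y : ℝ) (m : ℤ) : nd y ≤ |y - m| := round_le y m

lemma nd_add (y z : ℝ) : nd (y + z) ≤ nd y + |z| := by
  have h := nd_le (y + z) (round y)
  have h2 : |y + z - round y| ≤ |y - round y| + |z| := by
    have := abs_add_le (y - round y) z
    rwa [show y - round y + z = y + z - round y by ring] at this
  exact h.trans h2

/-- the closed sets of type H -/
def HS (q : ℕ → ℕ) (γ ε : ℝ) (K : ℕ) : Set ℝ := {x | ∀ k, K ≤ k → ε ≤ nd (q k * x - γ)}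

lemma HS_closed (q : ℕ → ℕ) (γ ε : ℝ) (K : ℕ) : IsClosed (HS q γ ε K) := by
  have h : HS q γ ε K = ⋂ k, ⋂ (_ : K ≤ k), {x | ε ≤ nd (q k * x - γ)} := by
    ext x
    simp [HS]
  rw [h]
  refine isClosed_iInter fun k => isClosed_iInter fun _ => ?_
  exact isClosed_le continuous_const (nd_cont.comp (by fun_prop))

lemma riemann_lebesgue (A : Set ℝ) (hA : MeasurableSet A) (a : ℤ) (ha : a ≠ 0) {q : ℕ → ℕ}
    (hq : Tendsto q atTop atTop) :
    Tendsto (fun k => ∫ x in A, ex a (q k * x)) atTop (𝓝 0) := by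
  have h1 := Real.tendsto_integral_exp_smul_cocompact (E := ℂ) (A.indicator (fun _ => (1 : ℂ)))
  have hqr : Tendsto (fun k => (q k : ℝ)) atTop atTop := tendsto_natCast_atTop_atTop.comp hq
  have hw : Tendsto (fun k => -((a : ℝ) * (q k : ℝ))) atTop (cocompact ℝ) := by
    rw [← Metric.cobounded_eq_cocompact, ← comap_norm_atTop, tendsto_comap_iff]
    have h2 : Tendsto (fun k => |(a : ℝ)| * (q k : ℝ)) atTop atTop :=
      hqr.const_mul_atTop (by positivity)
    refine h2.congr fun k => ?_
    simp only [Function.comp_apply]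
    rw [Real.norm_eq_abs, abs_neg, abs_mul, Nat.abs_cast]
  refine (h1.comp hw).congr fun k => ?_
  simp only [Function.comp_apply]
  rw [← integral_indicator hA]
  congr 1
  ext x
  by_cases hx : x ∈ A
  · rw [Set.indicator_of_mem hx, Set.indicator_of_mem hx, Circle.smul_def, smul_eq_mul, mul_one,
      Real.fourierChar_apply, ex_eq]
    congr 2
    push_cast
    ring
  · rw [Set.indicator_of_notMem hx, Set.indicator_of_notMem hx, smul_zero]

lemma HS_null {q : ℕ → ℕ} (hq : Tendsto q atTop atTop) (γ : ℝ) {ε : ℝ} (hε : 0 < ε) (K : ℕ) :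
    volume (HS q γ ε K) = 0 := by
  have hR : ∀ R : ℕ, volume (HS q γ ε K ∩ Set.Icc (-(R : ℝ)) R) = 0 := by
    intro R
    set A : Set ℝ := HS q γ ε K ∩ Set.Icc (-(R : ℝ)) R with hAdef
    have hAm : MeasurableSet A := (HS_closed q γ ε K).measurableSet.inter measurableSet_Icc
    have hAfin : volume A < ⊤ := lt_of_le_of_lt (measure_mono Set.inter_subset_right) (by simp)
    have hfin : IsFiniteMeasure (volume.restrict A) := ⟨by rw [Measure.restrict_apply_univ]; exact hAfin⟩
    set V : ℝ := (volume A).toReal with hV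
    have hVr : (volume.restrict A).real Set.univ = V := by
      rw [Measure.real, Measure.restrict_apply_univ]
    -- the integrals of the tent vanish
    have hint : ∀ k, K ≤ k → ∑' a : ℤ, (u (Real.pi * a * ε) : ℂ) * ex a (-γ) *
        ∫ x in A, ex a (q k * x) = 0 := by
      intro k hk
      have h1 : ∫ x in A, tent ε (q k * x - γ) = 0 := by
        rw [setIntegral_congr_fun (g := fun _ => (0 : ℂ)) hAm]
        · simp
        · intro x hx
          exact tent_eq_zero hε (hx.1 k hk)
      have h2 : ∀ x, tent ε (q k * x - γ) = ∑' a : ℤ, (u (Real.pi * a * ε) : ℂ) * ex a (-γ) *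
          ex a (q k * x) := by
        intro x
        unfold tent
        congr 1
        ext a
        rw [sub_eq_add_neg, ex_add_right]
        ring
      simp_rw [h2] at h1
      rw [← h1, ← integral_tsum_of_summable_integral_norm (μ := volume.restrict A)]
      · congr 1
        ext a
        rw [integral_const_mul]
      · intro a
        have hcont : Continuous fun x : ℝ => (u (Real.pi * a * ε) : ℂ) * ex a (-γ) *
            ex a (q k * x) := continuous_const.mul ((ex_cont a).comp (by fun_prop))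
        exact (hcont.integrableOn_Icc (a := -(R : ℝ)) (b := R)).mono_set Set.inter_subset_right
      · have h3 : ∀ a : ℤ, ∫ x in A, ‖(u (Real.pi * a * ε) : ℂ) * ex a (-γ) * ex a (q k * x)‖ =
            u (Real.pi * a * ε) * V := by
          intro a
          have h4 : ∀ x, ‖(u (Real.pi * a * ε) : ℂ) * ex a (-γ) * ex a (q k * x)‖ =
              u (Real.pi * a * ε) := by
            intro x
            rw [norm_mul, norm_mul, ex_norm, ex_norm, mul_one, mul_one, Complex.norm_real,
              Real.norm_eq_abs, abs_of_nonneg (u_nonneg _)]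
          simp_rw [h4]
          rw [integral_const, hVr, smul_eq_mul, mul_comm]
        simp_rw [h3]
        exact (summable_tent hε).mul_right _
    -- the limit
    have hlim : Tendsto (fun k => ∑' a : ℤ, (u (Real.pi * a * ε) : ℂ) * ex a (-γ) *
        ∫ x in A, ex a (q k * x)) atTop (𝓝 (∑' a : ℤ, if a = 0 then (V : ℂ) else 0)) := by
      refine tendsto_tsum_of_dominated_convergence (bound := fun a : ℤ => u (Real.pi * a * ε) * V)
        ((summable_tent hε).mul_right _) ?_ ?_
      · intro a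
        by_cases ha : a = 0
        · subst ha
          simp only [ex_zero, if_true, Int.cast_zero, mul_zero, zero_mul, u_zero, Complex.ofReal_one,
            mul_one, one_mul]
          rw [integral_const, hVr]
          simp
        · rw [if_neg ha]
          have := (riemann_lebesgue A hAm a ha hq).const_mul ((u (Real.pi * a * ε) : ℂ) * ex a (-γ))
          rwa [mul_zero] at this
      · refine Eventually.of_forall fun k a => ?_
        rw [norm_mul, norm_mul, ex_norm, mul_one, Complex.norm_real, Real.norm_eq_abs,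
          abs_of_nonneg (u_nonneg _)]
        apply mul_le_mul_of_nonneg_left _ (u_nonneg _)
        have h5 := norm_integral_le_of_norm_le_const (μ := volume.restrict A)
          (f := fun x => ex a (q k * x)) (C := 1) (ae_of_all _ fun x => (ex_norm _ _).le)
        rwa [one_mul, hVr] at h5
    rw [tsum_ite_eq] at hlim
    have h0 : Tendsto (fun k => ∑' a : ℤ, (u (Real.pi * a * ε) : ℂ) * ex a (-γ) *
        ∫ x in A, ex a (q k * x)) atTop (𝓝 0) := by
      refine tendsto_const_nhds.congr' ?_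
      filter_upwards [eventually_ge_atTop K] with k hk
      exact (hint k hk).symm
    have h6 : (V : ℂ) = 0 := tendsto_nhds_unique hlim h0
    have h7 : V = 0 := by exact_mod_cast h6
    rcases (ENNReal.toReal_eq_zero_iff _).1 h7 with h8 | h8
    · exact h8
    · exact absurd h8 hAfin.ne
  have hcov : HS q γ ε K ⊆ ⋃ R : ℕ, HS q γ ε K ∩ Set.Icc (-(R : ℝ)) R := by
    intro x hx
    obtain ⟨R, hRx⟩ := exists_nat_ge |x|
    exact Set.mem_iUnion.2 ⟨R, hx, abs_le.1 hRx⟩
  exact measure_mono_null hcov (measure_iUnion_null hR)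

/-- the residues of `q_k x` come close to every point infinitely often -/
def Dns (q : ℕ → ℕ) (x : ℝ) : Prop := ∀ γ ε : ℝ, 0 < ε → ∀ K : ℕ, ∃ k, K ≤ k ∧ nd (q k * x - γ) < ε

lemma Dns_of_not_HS {q : ℕ → ℕ} {x : ℝ} (h : ∀ (γ : ℚ) (m K : ℕ), x ∉ HS q γ (1 / ((m : ℝ) + 1)) K) :
    Dns q x := by
  intro γ ε hε K
  obtain ⟨m, hm⟩ := exists_nat_one_div_lt (half_pos hε)
  obtain ⟨r, hr1, hr2⟩ := exists_rat_btwn (show γ - ε / 2 < γ + ε / 2 by linarith)
  have h1 := h r m K
  simp only [HS, Set.mem_ofPred_eq, not_forall, not_le] at h1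
  obtain ⟨k, hk, h2⟩ := h1
  refine ⟨k, hk, ?_⟩
  have h3 : (q k : ℝ) * x - γ = (q k * x - r) + (r - γ) := by ring
  rw [h3]
  have h4 := nd_add (q k * x - r) (r - γ)
  have h5 : |(r : ℝ) - γ| < ε / 2 := by rw [abs_lt]; constructor <;> linarith
  linarith

/-- the support of the series -/
def P (c : ℤ → ℂ) : Set ℝ := {x | ∀ δ : ℝ, 0 < δ → ∃ y t : ℝ, |y - x| < δ ∧ 0 < t ∧ t < δ ∧ dd c y t ≠ 0}

lemma P_closed (c : ℤ → ℂ) : IsClosed (P c) := by
  rw [← isOpen_compl_iff, Metric.isOpen_iff]
  intro x hx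
  simp only [P, Set.mem_compl_iff, Set.mem_ofPred_eq, not_forall, not_exists, not_and, not_not] at hx
  obtain ⟨δ, hδ, h⟩ := hx
  refine ⟨δ / 2, by positivity, fun z hz => ?_⟩
  simp only [P, Set.mem_compl_iff, Set.mem_ofPred_eq, not_forall, not_exists, not_and, not_not]
  rw [Metric.mem_ball, Real.dist_eq] at hz
  refine ⟨δ / 2, by positivity, fun y t hy ht htδ => h y t ?_ ht (by linarith)⟩
  have := abs_add_le (y - z) (z - x)
  rw [sub_add_sub_cancel] at this
  linarith

lemma not_P {c : ℤ → ℂ} {x : ℝ} (h : x ∉ P c) :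
    ∃ δ : ℝ, 0 < δ ∧ ∀ y t : ℝ, |y - x| < δ → 0 < t → t < δ → dd c y t = 0 := by
  simp only [P, Set.mem_ofPred_eq, not_forall, not_exists, not_and, not_not] at h
  obtain ⟨δ, hδ, h⟩ := h
  exact ⟨δ, hδ, h⟩

lemma dd_zero_of_not_P (c : ℤ → ℂ) {C : ℝ} (hC : ∀ n, ‖c n‖ ≤ C) {y t : ℝ} (ht : 0 < t)
    (h : ∀ z ∈ Set.Ioo (y - t) (y + t), z ∉ P c) : dd c y t = 0 := by
  have hFc := F_cont c hC
  have hre := schwarz (f := fun y => (F c y).re) (Complex.continuous_re.comp hFc) ht (by
    intro z hz ε hε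
    obtain ⟨δ, hδ, h1⟩ := not_P (h z hz)
    refine ⟨δ, hδ, fun s hs hsδ => ?_⟩
    have h2 := congrArg Complex.re (h1 z s (by simpa using hδ) hs hsδ)
    have h3 : (F c (z + s)).re + (F c (z - s)).re - 2 * (F c z).re = 0 := by
      simpa [dd] using h2
    show |(F c (z + s)).re + (F c (z - s)).re - 2 * (F c z).re| ≤ ε * s ^ 2
    rw [h3, abs_zero]
    positivity)
  have him := schwarz (f := fun y => (F c y).im) (Complex.continuous_im.comp hFc) ht (by
    intro z hz ε hε
    obtain ⟨δ, hδ, h1⟩ := not_P (h z hz)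
    refine ⟨δ, hδ, fun s hs hsδ => ?_⟩
    have h2 := congrArg Complex.im (h1 z s (by simpa using hδ) hs hsδ)
    have h3 : (F c (z + s)).im + (F c (z - s)).im - 2 * (F c z).im = 0 := by
      simpa [dd] using h2
    show |(F c (z + s)).im + (F c (z - s)).im - 2 * (F c z).im| ≤ ε * s ^ 2
    rw [h3, abs_zero]
    positivity)
  apply Complex.ext
  · simpa [dd] using hre
  · simpa [dd] using him

/-- The bounded case. -/
lemma case_bounded (c : ℤ → ℂ) {C : ℝ} (hC : ∀ n, ‖c n‖ ≤ C) {E : Set ℝ} (hE : volume E = 0)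
    (hconv : ∀ x, x ∉ E → Tendsto (fun N : ℕ => S c N x) atTop (𝓝 0))
    {y t : ℝ} (ht : 0 < t) {M : ℕ}
    (h : ∀ z ∈ Set.Ioo (y - t) (y + t), z ∈ P c → ∀ N : ℕ, ‖S c N z‖ ≤ M) : dd c y t = 0 := by
  have hpi := Real.pi_pos
  have hFc := F_cont c hC
  set K : ℝ := M * (1 + 4 * Real.pi) with hK
  have hK0 : 0 ≤ K := by positivity
  have hb : ∀ z ∈ Set.Ioo (y - t) (y + t), ∃ δ : ℝ, 0 < δ ∧ ∀ s : ℝ, 0 < s → s < δ →
      ‖dd c z s‖ ≤ K * s ^ 2 := by
    intro z hz
    by_cases hzP : z ∈ P c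
    · exact ⟨1, one_pos, fun s hs _ => dd_bounded c hC (h z hz hzP) hs⟩
    · obtain ⟨δ, hδ, h1⟩ := not_P hzP
      refine ⟨δ, hδ, fun s hs hsδ => ?_⟩
      rw [h1 z s (by simpa using hδ) hs hsδ, norm_zero]
      positivity
  have h0 : ∀ z ∈ Set.Ioo (y - t) (y + t), z ∉ E → ∀ ε : ℝ, 0 < ε → ∃ δ : ℝ, 0 < δ ∧ ∀ s : ℝ,
      0 < s → s < δ → ‖dd c z s‖ ≤ ε * s ^ 2 := by
    intro z _ hzE ε hε
    exact second_diff_small c hC (hconv z hzE) ε hε
  have hre := dlvp (f := fun y => (F c y).re) (Complex.continuous_re.comp hFc) ht hK0 hE (by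
    intro z hz
    obtain ⟨δ, hδ, h1⟩ := hb z hz
    refine ⟨δ, hδ, fun s hs hsδ => ?_⟩
    have h2 := (Complex.abs_re_le_norm _).trans (h1 s hs hsδ)
    simpa [dd] using h2) (by
    intro z hz hzE ε hε
    obtain ⟨δ, hδ, h1⟩ := h0 z hz hzE ε hε
    refine ⟨δ, hδ, fun s hs hsδ => ?_⟩
    have h2 := (Complex.abs_re_le_norm _).trans (h1 s hs hsδ)
    simpa [dd] using h2)
  have him := dlvp (f := fun y => (F c y).im) (Complex.continuous_im.comp hFc) ht hK0 hE (by
    intro z hz
    obtain ⟨δ, hδ, h1⟩ := hb z hz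
    refine ⟨δ, hδ, fun s hs hsδ => ?_⟩
    have h2 := (Complex.abs_im_le_norm _).trans (h1 s hs hsδ)
    simpa [dd] using h2) (by
    intro z hz hzE ε hε
    obtain ⟨δ, hδ, h1⟩ := h0 z hz hzE ε hε
    refine ⟨δ, hδ, fun s hs hsδ => ?_⟩
    have h2 := (Complex.abs_im_le_norm _).trans (h1 s hs hsδ)
    simpa [dd] using h2)
  apply Complex.ext
  · simpa [dd] using hre
  · simpa [dd] using him

/-- The case of a set of type H. -/
lemma case_H (c : ℤ → ℂ) {C : ℝ} (hC : ∀ n, ‖c n‖ ≤ C)
    (hs : ∀ ε : ℝ, 0 < ε → ∃ M : ℕ, ∀ n : ℤ, M ≤ n.natAbs → ‖c n‖ ≤ ε)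
    {q : ℕ → ℕ} (hq : Tendsto q atTop atTop) {γ ε : ℝ} (hε : 0 < ε) (K : ℕ)
    {x δ : ℝ} (hδ : 0 < δ) (h : ∀ z, |z - x| < δ → z ∈ P c → z ∈ HS q γ ε K)
    {y t : ℝ} (ht : 0 < t) (hy : |y - x| < δ / 4) (htδ : t < δ / 4) : dd c y t = 0 := by
  apply dd_zero_of_D c hC ht.ne'
  have hqr : Tendsto (fun k => (q k : ℝ)) atTop atTop := tendsto_natCast_atTop_atTop.comp hq
  obtain ⟨K1, hK1⟩ := eventually_atTop.1 (hqr.eventually_ge_atTop (2 * ε / δ + 1))
  apply local_H c hC hs (θ := γ) (ρ := ε / 2) ht (by positivity) hq (max K K1)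
  intro k hk j hj
  have hkK : K ≤ k := (le_max_left _ _).trans hk
  have hq1 := hK1 k ((le_max_right _ _).trans hk)
  have hq0 : (0 : ℝ) < q k := by
    have : 0 ≤ 2 * ε / δ := by positivity
    linarith
  have hεq : ε / 2 / q k < δ / 4 := by
    rw [div_lt_iff₀ hq0]
    have h1 : δ / 4 * (2 * ε / δ) = ε / 2 := by field_simp; norm_num
    have h2 : δ / 4 * (2 * ε / δ + 1) ≤ δ / 4 * q k := mul_le_mul_of_nonneg_left hq1 (by positivity)
    nlinarith
  apply D_zero_of_dd c hC (by positivity)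
  apply dd_zero_of_not_P c hC (by positivity)
  intro z hz hzP
  have hz1 : |z - (γ + j) / q k| < ε / 2 / q k := by
    rw [abs_lt]
    constructor <;> linarith [hz.1, hz.2]
  have hzx : |z - x| < δ := by
    have h1 := abs_add_le (z - (γ + j) / q k) ((γ + j) / q k - x)
    have h2 := abs_add_le ((γ + j) / q k - y) (y - x)
    rw [sub_add_sub_cancel] at h1 h2
    linarith
  have h3 := h z hzx hzP k hkK
  have h4 := nd_le (q k * z - γ) j
  have h5 : (q k : ℝ) * z - γ - j = q k * (z - (γ + j) / q k) := by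
    field_simp
    ring
  rw [h5, abs_mul, abs_of_pos hq0] at h4
  have h6 : (q k : ℝ) * |z - (γ + j) / q k| < ε / 2 := by
    have := mul_lt_mul_of_pos_left hz1 hq0
    rwa [mul_div_cancel₀ _ hq0.ne'] at this
  linarith

/-- **Rajchman-Bary.** Let `q i` be countably many sequences of positive integers tending to
infinity. A trigonometric series which converges to zero at all `x` such that for each `i` the
sequence `q i k * x` is dense modulo one is identically zero. -/
theorem uniqueness {ι : Type} [Countable ι] (q : ι → ℕ → ℕ) (hq : ∀ i, Tendsto (q i) atTop atTop)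
    (c : ℤ → ℂ) (H : ∀ x : ℝ, (∀ i, Dns (q i) x) → Tendsto (fun N : ℕ => S c N x) atTop (𝓝 0))
    (l : ℤ) : c l = 0 := by
  -- the exceptional set
  let X : ι × ℚ × ℕ × ℕ → Set ℝ := fun j => HS (q j.1) j.2.1 (1 / ((j.2.2.1 : ℝ) + 1)) j.2.2.2
  set E : Set ℝ := ⋃ j, X j with hE
  have hE0 : volume E = 0 := measure_iUnion_null fun j => HS_null (hq j.1) _ (by positivity) _
  have hconv : ∀ x, x ∉ E → Tendsto (fun N : ℕ => S c N x) atTop (𝓝 0) := by
    intro x hx
    apply H x
    intro i
    apply Dns_of_not_HS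
    intro γ m K hc
    exact hx (Set.mem_iUnion.2 ⟨(i, γ, m, K), hc⟩)
  have hae : ∀ᵐ x : ℝ, Tendsto (fun N : ℕ => S c N x) atTop (𝓝 0) := by
    rw [ae_iff]
    refine measure_mono_null (fun x hx => ?_) hE0
    by_contra hc
    exact hx (hconv x hc)
  have hs := coeff_ae c hae
  obtain ⟨C, hC⟩ := bdd_of_small c hs
  -- the support is empty
  have hP : P c = ∅ := by
    by_contra hne
    have hne' : (P c).Nonempty := Set.nonempty_iff_ne_empty.2 hne
    have hcl := P_closed c
    have : Nonempty (P c) := hne'.to_subtype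
    have : CompleteSpace (P c) := hcl.completeSpace_coe
    let f : (ι × ℚ × ℕ × ℕ) ⊕ ℕ → Set (P c) := fun j => match j with
      | Sum.inl j => {x | (x : ℝ) ∈ X j}
      | Sum.inr M => {x | ∀ N : ℕ, ‖S c N (x : ℝ)‖ ≤ M}
    have hfc : ∀ j, IsClosed (f j) := by
      intro j
      cases j with
      | inl j => exact (HS_closed _ _ _ _).preimage continuous_subtype_val
      | inr M =>
        have h1 : f (Sum.inr M) = ⋂ N : ℕ, {x : P c | ‖S c N (x : ℝ)‖ ≤ M} := by
          ext x
          simp [f]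
        rw [h1]
        refine isClosed_iInter fun N => isClosed_le (Continuous.norm ?_) continuous_const
        unfold S
        exact continuous_finsetSum _ fun n _ =>
          continuous_const.mul ((ex_cont n).comp continuous_subtype_val)
    have hfu : ⋃ j, f j = Set.univ := by
      rw [Set.eq_univ_iff_forall]
      intro x
      by_cases hx : (x : ℝ) ∈ E
      · obtain ⟨j, hj⟩ := Set.mem_iUnion.1 hx
        exact Set.mem_iUnion.2 ⟨Sum.inl j, hj⟩
      · have h1 := (hconv x hx).norm.bddAbove_range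
        obtain ⟨B, hB⟩ := h1
        obtain ⟨M, hM⟩ := exists_nat_ge B
        refine Set.mem_iUnion.2 ⟨Sum.inr M, fun N => ?_⟩
        exact (hB ⟨N, rfl⟩).trans hM
    obtain ⟨j, x, hx⟩ := nonempty_interior_of_iUnion_of_closed hfc hfu
    rw [mem_interior_iff_mem_nhds, Metric.mem_nhds_iff] at hx
    obtain ⟨δ, hδ, hball⟩ := hx
    have hloc : ∀ z (hz : z ∈ P c), |z - x| < δ → (⟨z, hz⟩ : P c) ∈ f j := by
      intro z hz hzx
      apply hball
      rw [Metric.mem_ball, Subtype.dist_eq, Real.dist_eq]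
      exact hzx
    -- contradiction
    have hzero : ∀ y t : ℝ, |y - x| < δ / 4 → 0 < t → t < δ / 4 → dd c y t = 0 := by
      intro y t hy ht htδ
      cases j with
      | inl j =>
        exact case_H c hC hs (hq j.1) (by positivity) j.2.2.2 hδ
          (fun z hzx hz => hloc z hz hzx) ht hy htδ
      | inr M =>
        refine case_bounded c hC hE0 hconv ht (M := M) fun z hz hzP => hloc z hzP ?_
        have h1 : |z - y| < t := by
          rw [abs_lt]
          constructor <;> linarith [hz.1, hz.2]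
        have h2 := abs_add_le (z - y) (y - x)
        rw [sub_add_sub_cancel] at h2
        linarith
    obtain ⟨y, t, hy, ht, htδ, hne⟩ := x.2 (δ / 4) (by positivity)
    exact hne (hzero y t hy ht htδ)
  -- conclusion
  have hdd : ∀ y t : ℝ, 0 < t → dd c y t = 0 := fun y t ht =>
    dd_zero_of_not_P c hC ht fun z _ => by rw [hP]; exact Set.notMem_empty z
  have hq' : Tendsto (fun k : ℕ => k + 1) atTop atTop := tendsto_add_atTop_nat 1
  have hlim := T_lim c hC hs (ρ := 1) (θ := 0) one_pos hq' l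
  have hT : ∀ k : ℕ, T c 1 0 (k + 1) l = 0 := by
    intro k
    have h1 := prog_id c hC (ρ := 1) (θ := 0) one_pos (k + 1) (Nat.succ_pos k) l
    rw [Finset.sum_eq_zero] at h1
    · have h2 : ((k + 1 : ℕ) : ℂ) ≠ 0 := by exact_mod_cast Nat.succ_ne_zero k
      exact (mul_eq_zero.1 h1.symm).resolve_left h2
    · intro j _
      rw [D_zero_of_dd c hC (by positivity) _ (hdd _ _ (by positivity)), mul_zero]
  simp_rw [hT] at hlim
  exact (tendsto_nhds_unique hlim tendsto_const_nhds)

end Pool.Agent.TH723.BR
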