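import Mathlib
import Pool.Agent.TH723.BR.Main

set_option autoImplicit false

/-!
Products of tents and formal multiplication of trigonometric series.
-/

namespace Pool.Agent.TH723.BR

open Filter Topology MeasureTheory
open Pool.Agent.TH275.UQ

lemma prod_tsum : ∀ (m : ℕ) (f : Fin m → ℤ → ℂ), (∀ j, Summable fun a => ‖f j a‖) →
    (Summable fun a : Fin m → ℤ => ‖∏ j, f j (a j)‖) ∧
      ∑' a : Fin m → ℤ, ∏ j, f j (a j) = ∏ j, ∑' a, f j a := by
  intro m
  induction m with
  | zero =>
    intro f _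
    refine ⟨?_, ?_⟩
    · exact (hasSum_unique _).summable
    · rw [(hasSum_unique _).tsum_eq]
      simp
  | succ m ih =>
    intro f hf
    obtain ⟨h1, h2⟩ := ih (fun j => f j.succ) fun j => hf j.succ
    set e : ℤ × (Fin m → ℤ) ≃ (Fin (m + 1) → ℤ) := Fin.consEquiv (fun _ => ℤ) with he
    have h3 : ∀ p : ℤ × (Fin m → ℤ), ∏ j, f j (e p j) = f 0 p.1 * ∏ j : Fin m, f j.succ (p.2 j) := by
      intro p
      rw [Fin.prod_univ_succ]
      rfl
    refine ⟨?_, ?_⟩
    · rw [← e.summable_iff]
      refine ((hf 0).mul_of_nonneg h1 (fun _ => norm_nonneg _) (fun _ => norm_nonneg _)).congr ?_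
      intro p
      simp only [Function.comp_apply]
      rw [h3, norm_mul]
    · rw [← e.tsum_eq]
      simp_rw [h3]
      rw [← tsum_mul_tsum_of_summable_norm (hf 0) h1, h2, Fin.prod_univ_succ]

lemma int01 (n : ℤ) : ∫ x in (0:ℝ)..1, ex n x = if n = 0 then 1 else 0 := by
  by_cases hn : n = 0
  · subst hn
    simp [ex_zero]
  · rw [if_neg hn]
    have hcne : (2 * (Real.pi : ℂ) * Complex.I * n) ≠ 0 := by
      have : (n : ℂ) ≠ 0 := by exact_mod_cast hn
      have hpi : (Real.pi : ℂ) ≠ 0 := by exact_mod_cast Real.pi_ne_zero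
      simp [this, hpi]
    have h1 : ∀ x : ℝ, ex n x = Complex.exp ((2 * (Real.pi : ℂ) * Complex.I * n) * x) := fun x => rfl
    simp_rw [h1]
    rw [integral_exp_mul_complex hcne]
    have h2 : Complex.exp ((2 * (Real.pi : ℂ) * Complex.I * n) * ((1 : ℝ) : ℂ)) = 1 := by
      have := ex_add_int n 1 0
      rw [ex_zero_right] at this
      rw [← this]
      show _ = Complex.exp _
      congr 1
      push_cast
      ring
    rw [h2]
    simp

/-- **Formal multiplication.** -/
theorem formal (c : ℤ → ℂ) {C : ℝ} (hC : ∀ n, ‖c n‖ ≤ C) {I : Type} [Countable I] (w : I → ℂ)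
    (hw : Summable fun i => ‖w i‖) (n : I → ℤ) {δ : ℝ} (hδ : 0 < δ)
    (H : ∀ x t : ℝ, 0 < t → t < δ → (∑' i, w i * ex (n i) x) * D c x t = 0) :
    ∑' i, w i * c (-(n i)) = 0 := by
  have hC0 : 0 ≤ C := (norm_nonneg _).trans (hC 0)
  have key : ∀ t : ℝ, 0 < t → t < δ →
      ∑' i, w i * (c (-(n i)) * (u (Real.pi * ((-(n i) : ℤ) : ℝ) * t) : ℂ)) = 0 := by
    intro t ht htδ
    set b : ℤ → ℂ := fun a => c a * (u (Real.pi * a * t) : ℂ) with hb
    have hbs : Summable fun a => ‖b a‖ := by
      have h1 := (summable_u c hC ht.ne' 0).norm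
      refine h1.congr fun a => ?_
      rw [hb]
      simp only
      rw [ex_zero_right, mul_one]
    have hsum : Summable fun p : I × ℤ => ‖w p.1 * b p.2‖ := by
      refine (hw.mul_of_nonneg hbs (fun _ => norm_nonneg _) (fun _ => norm_nonneg _)).congr ?_
      intro p
      exact (norm_mul (w p.1) (b p.2)).symm
    have h1 : ∀ x : ℝ, (∑' i, w i * ex (n i) x) * D c x t =
        ∑' p : I × ℤ, w p.1 * b p.2 * ex (n p.1 + p.2) x := by
      intro x
      unfold D
      rw [tsum_mul_tsum_of_summable_norm]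
      · congr 1
        ext p
        rw [ex_add_left]
        simp only [hb]
        ring
      · refine hw.congr fun i => ?_
        rw [norm_mul, ex_norm, mul_one]
      · refine hbs.congr fun a => ?_
        rw [norm_mul _ (ex a x), ex_norm, mul_one]
    have h2 : ∫ x in (0:ℝ)..1, ∑' p : I × ℤ, w p.1 * b p.2 * ex (n p.1 + p.2) x = 0 := by
      rw [intervalIntegral.integral_congr (g := fun _ => (0:ℂ))]
      · simp
      · intro x _
        simp only
        rw [← h1, H x t ht htδ]
    have h3 : ∫ x in (0:ℝ)..1, ∑' p : I × ℤ, w p.1 * b p.2 * ex (n p.1 + p.2) x =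
        ∑' p : I × ℤ, w p.1 * b p.2 * (if n p.1 + p.2 = 0 then 1 else 0) := by
      simp_rw [intervalIntegral.integral_of_le zero_le_one]
      rw [← integral_tsum_of_summable_integral_norm (μ := volume.restrict (Set.Ioc (0:ℝ) 1))]
      · congr 1
        ext p
        rw [integral_const_mul, ← intervalIntegral.integral_of_le zero_le_one, int01]
      · intro p
        have : Continuous fun x : ℝ => w p.1 * b p.2 * ex (n p.1 + p.2) x :=
          continuous_const.mul (ex_cont _)
        exact this.integrableOn_Ioc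
      · refine hsum.congr fun p => ?_
        have : ∀ x : ℝ, ‖w p.1 * b p.2 * ex (n p.1 + p.2) x‖ = ‖w p.1 * b p.2‖ := by
          intro x
          rw [norm_mul _ (ex _ x), ex_norm, mul_one]
        simp_rw [this]
        simp
    rw [h3] at h2
    rw [← h2]
    have hsum2 : Summable fun p : I × ℤ => w p.1 * b p.2 * (if n p.1 + p.2 = 0 then 1 else 0) := by
      refine Summable.of_norm_bounded hsum fun p => ?_
      rw [norm_mul _ (ite _ _ _)]
      refine mul_le_of_le_one_right (norm_nonneg _) ?_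
      split_ifs <;> simp
    rw [hsum2.tsum_prod]
    congr 1
    ext i
    rw [tsum_eq_single (-(n i))]
    · simp only [add_neg_cancel, if_true, mul_one, hb]
    · intro a ha
      have : n i + a ≠ 0 := by
        intro hc
        apply ha
        omega
      simp only [if_neg this, mul_zero]
  -- the limit
  have ht0 : Tendsto (fun k : ℕ => δ / ((k : ℝ) + 2)) atTop (𝓝 0) := by
    have h1 : Tendsto (fun k : ℕ => (k : ℝ) + 2) atTop atTop :=
      tendsto_atTop_add_const_right _ _ tendsto_natCast_atTop_atTop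
    exact h1.const_div_atTop δ
  have hlim : Tendsto (fun k : ℕ => ∑' i, w i * (c (-(n i)) *
      (u (Real.pi * ((-(n i) : ℤ) : ℝ) * (δ / ((k : ℝ) + 2))) : ℂ))) atTop
      (𝓝 (∑' i, w i * c (-(n i)))) := by
    refine tendsto_tsum_of_dominated_convergence (bound := fun i => ‖w i‖ * C) (hw.mul_right _) ?_ ?_
    · intro i
      apply Tendsto.const_mul
      have h3 := ht0.const_mul (Real.pi * ((-(n i) : ℤ) : ℝ))
      rw [mul_zero] at h3
      have h4 := (u_cont.tendsto 0).comp h3
      rw [u_zero] at h4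
      have h5 := ((Complex.continuous_ofReal.tendsto 1).comp h4).const_mul (c (-(n i)))
      simpa using h5
    · refine Eventually.of_forall fun k i => ?_
      rw [norm_mul, norm_mul, Complex.norm_real, Real.norm_eq_abs, abs_of_nonneg (u_nonneg _)]
      apply mul_le_mul_of_nonneg_left _ (norm_nonneg _)
      calc _ ≤ C * 1 := mul_le_mul (hC _) (u_le_one _) (u_nonneg _) hC0
        _ = C := mul_one _
  have hz : ∀ k : ℕ, ∑' i, w i * (c (-(n i)) *
      (u (Real.pi * ((-(n i) : ℤ) : ℝ) * (δ / ((k : ℝ) + 2))) : ℂ)) = 0 := by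
    intro k
    have hk : (0 : ℝ) ≤ k := Nat.cast_nonneg k
    apply key
    · positivity
    · rw [div_lt_iff₀ (by linarith)]
      nlinarith
  simp_rw [hz] at hlim
  exact (tendsto_nhds_unique hlim tendsto_const_nhds)

/-- the coefficients of the product of tents -/
noncomputable def tw {m : ℕ} (γ : Fin m → ℝ) (ε : ℝ) (a : Fin m → ℤ) : ℂ :=
  ∏ j, ((u (Real.pi * a j * ε) : ℂ) * ex (a j) (-γ j))

/-- the linear form -/
def lf {m : ℕ} (v : Fin m → ℤ) (a : Fin m → ℤ) : ℤ := ∑ j, a j * v j

lemma lf_zero {m : ℕ} (v : Fin m → ℤ) : lf v 0 = 0 := by simp [lf]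

lemma tw_zero {m : ℕ} (γ : Fin m → ℝ) (ε : ℝ) : tw γ ε 0 = 1 := by
  unfold tw
  apply Finset.prod_eq_one
  intro j _
  simp [ex_zero, u_zero]

lemma tent_summand {ε : ℝ} (hε : 0 < ε) (g y : ℝ) :
    Summable fun a : ℤ => ‖(u (Real.pi * a * ε) : ℂ) * ex a (-g) * ex a y‖ := by
  refine (summable_tent hε).congr fun a => ?_
  rw [norm_mul, norm_mul, ex_norm, ex_norm, mul_one, mul_one, Complex.norm_real, Real.norm_eq_abs,
    abs_of_nonneg (u_nonneg _)]

lemma tw_summable {m : ℕ} (γ : Fin m → ℝ) {ε : ℝ} (hε : 0 < ε) : Summable fun a => ‖tw γ ε a‖ := by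
  have h := (prod_tsum m (fun j a => (u (Real.pi * a * ε) : ℂ) * ex a (-γ j)) (fun j => by
    refine (tent_summand hε (γ j) 0).congr fun a => ?_
    rw [ex_zero_right, mul_one])).1
  exact h

lemma ex_mul_int (a v : ℤ) (x : ℝ) : ex a (v * x) = ex (a * v) x := by
  rw [ex_eq, ex_eq]
  congr 3
  push_cast
  ring

lemma ex_sum_left {ι : Type*} (s : Finset ι) (f : ι → ℤ) (x : ℝ) :
    ex (∑ i ∈ s, f i) x = ∏ i ∈ s, ex (f i) x := by
  classical
  induction s using Finset.induction_on with
  | empty => simp [ex_zero]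
  | insert a s ha ih => rw [Finset.sum_insert ha, Finset.prod_insert ha, ex_add_left, ih]

lemma tent_prod {m : ℕ} (γ : Fin m → ℝ) {ε : ℝ} (hε : 0 < ε) (v : Fin m → ℤ) (x : ℝ) :
    ∏ j, tent ε (v j * x - γ j) = ∑' a : Fin m → ℤ, tw γ ε a * ex (lf v a) x := by
  have h := (prod_tsum m (fun j a => (u (Real.pi * a * ε) : ℂ) * ex a (-γ j) * ex a (v j * x))
    (fun j => tent_summand hε (γ j) _)).2
  have h1 : ∀ j, tent ε (v j * x - γ j) =
      ∑' a : ℤ, (u (Real.pi * a * ε) : ℂ) * ex a (-γ j) * ex a (v j * x) := by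
    intro j
    unfold tent
    congr 1
    ext a
    rw [sub_eq_add_neg, ex_add_right]
    ring
  simp_rw [h1]
  rw [← h]
  congr 1
  ext a
  unfold tw lf
  rw [ex_sum_left, ← Finset.prod_mul_distrib]
  apply Finset.prod_congr rfl
  intro j _
  rw [ex_mul_int]

end Pool.Agent.TH723.BR
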