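import Mathlib
import Pool.Agent.TH723.BR.Prod

set_option autoImplicit false

/-!
Countable unions of sets of type `H^(m)` are sets of uniqueness (Pyatetskii-Shapiro, Bary).
-/

namespace Pool.Agent.TH723.BR

open Filter Topology MeasureTheory
open Pool.Agent.TH275.UQ

/-- the closed sets of type `H^(m)` -/
def HM {m : ℕ} (V : ℕ → Fin m → ℤ) (γ : Fin m → ℝ) (ε : ℝ) (K : ℕ) : Set ℝ :=
  {x | ∀ k, K ≤ k → ∃ j, ε ≤ nd (V k j * x - γ j)}

/-- quasi-independence -/
def QI {m : ℕ} (V : ℕ → Fin m → ℤ) : Prop :=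
  ∀ a : Fin m → ℤ, a ≠ 0 → Tendsto (fun k => |((lf (V k) a : ℤ) : ℝ)|) atTop atTop

lemma HM_closed {m : ℕ} (V : ℕ → Fin m → ℤ) (γ : Fin m → ℝ) (ε : ℝ) (K : ℕ) :
    IsClosed (HM V γ ε K) := by
  have h : HM V γ ε K = ⋂ k, ⋂ (_ : K ≤ k), ⋃ j, {x | ε ≤ nd (V k j * x - γ j)} := by
    ext x
    simp [HM]
  rw [h]
  refine isClosed_iInter fun k => isClosed_iInter fun _ => isClosed_iUnion_of_finite fun j => ?_
  exact isClosed_le continuous_const (nd_cont.comp (by fun_prop))

lemma rl_real (A : Set ℝ) (hA : MeasurableSet A) {n : ℕ → ℤ}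
    (hn : Tendsto (fun k => |((n k : ℤ) : ℝ)|) atTop atTop) :
    Tendsto (fun k => ∫ x in A, ex (n k) x) atTop (𝓝 0) := by
  have h1 := Real.tendsto_integral_exp_smul_cocompact (E := ℂ) (A.indicator (fun _ => (1 : ℂ)))
  have hw : Tendsto (fun k => -((n k : ℤ) : ℝ)) atTop (cocompact ℝ) := by
    rw [← Metric.cobounded_eq_cocompact, ← comap_norm_atTop, tendsto_comap_iff]
    refine hn.congr fun k => ?_
    simp only [Function.comp_apply]
    rw [Real.norm_eq_abs, abs_neg]
  refine (h1.comp hw).congr fun k => ?_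
  simp only [Function.comp_apply]
  rw [← integral_indicator hA]
  congr 1
  ext x
  by_cases hx : x ∈ A
  · rw [Set.indicator_of_mem hx, Set.indicator_of_mem hx, Circle.smul_def, smul_eq_mul, mul_one,
      Real.fourierChar_apply, ex_eq]
    congr 2
    push_cast
    ring
  · rw [Set.indicator_of_notMem hx, Set.indicator_of_notMem hx, smul_zero]

lemma HM_null {m : ℕ} {V : ℕ → Fin m → ℤ} (hV : QI V) (γ : Fin m → ℝ) {ε : ℝ} (hε : 0 < ε) (K : ℕ) :
    volume (HM V γ ε K) = 0 := by
  have hR : ∀ R : ℕ, volume (HM V γ ε K ∩ Set.Icc (-(R : ℝ)) R) = 0 := by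
    intro R
    set A : Set ℝ := HM V γ ε K ∩ Set.Icc (-(R : ℝ)) R with hAdef
    have hAm : MeasurableSet A := (HM_closed V γ ε K).measurableSet.inter measurableSet_Icc
    have hAfin : volume A < ⊤ := lt_of_le_of_lt (measure_mono Set.inter_subset_right) (by simp)
    have hfin : IsFiniteMeasure (volume.restrict A) := ⟨by rw [Measure.restrict_apply_univ]; exact hAfin⟩
    set W : ℝ := (volume A).toReal with hW
    have hWr : (volume.restrict A).real Set.univ = W := by
      rw [Measure.real, Measure.restrict_apply_univ]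
    have hts := tw_summable γ hε
    have hint : ∀ k, K ≤ k → ∑' a : Fin m → ℤ, tw γ ε a * ∫ x in A, ex (lf (V k) a) x = 0 := by
      intro k hk
      have h1 : ∫ x in A, ∏ j, tent ε (V k j * x - γ j) = 0 := by
        rw [setIntegral_congr_fun (g := fun _ => (0 : ℂ)) hAm]
        · simp
        · intro x hx
          obtain ⟨j, hj⟩ := hx.1 k hk
          exact Finset.prod_eq_zero (Finset.mem_univ j) (tent_eq_zero hε hj)
      simp_rw [tent_prod γ hε] at h1
      rw [← h1, ← integral_tsum_of_summable_integral_norm (μ := volume.restrict A)]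
      · congr 1
        ext a
        rw [integral_const_mul]
      · intro a
        have hcont : Continuous fun x : ℝ => tw γ ε a * ex (lf (V k) a) x :=
          continuous_const.mul (ex_cont _)
        exact (hcont.integrableOn_Icc (a := -(R : ℝ)) (b := R)).mono_set Set.inter_subset_right
      · have h3 : ∀ a : Fin m → ℤ, ∫ x in A, ‖tw γ ε a * ex (lf (V k) a) x‖ = ‖tw γ ε a‖ * W := by
          intro a
          have h4 : ∀ x, ‖tw γ ε a * ex (lf (V k) a) x‖ = ‖tw γ ε a‖ := by
            intro x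
            rw [norm_mul, ex_norm, mul_one]
          simp_rw [h4]
          rw [integral_const, hWr, smul_eq_mul, mul_comm]
        simp_rw [h3]
        exact hts.mul_right _
    have hlim : Tendsto (fun k => ∑' a : Fin m → ℤ, tw γ ε a * ∫ x in A, ex (lf (V k) a) x) atTop
        (𝓝 (∑' a : Fin m → ℤ, if a = 0 then (W : ℂ) else 0)) := by
      refine tendsto_tsum_of_dominated_convergence (bound := fun a => ‖tw γ ε a‖ * W)
        (hts.mul_right _) ?_ ?_
      · intro a
        by_cases ha : a = 0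
        · subst ha
          simp only [lf_zero, tw_zero, ex_zero, if_true, one_mul]
          rw [integral_const, hWr]
          simp
        · rw [if_neg ha]
          have := (rl_real A hAm (hV a ha)).const_mul (tw γ ε a)
          rwa [mul_zero] at this
      · refine Eventually.of_forall fun k a => ?_
        rw [norm_mul]
        apply mul_le_mul_of_nonneg_left _ (norm_nonneg _)
        have h5 := norm_integral_le_of_norm_le_const (μ := volume.restrict A)
          (f := fun x => ex (lf (V k) a) x) (C := 1) (ae_of_all _ fun x => (ex_norm _ _).le)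
        rwa [one_mul, hWr] at h5
    rw [tsum_ite_eq] at hlim
    have h0 : Tendsto (fun k => ∑' a : Fin m → ℤ, tw γ ε a * ∫ x in A, ex (lf (V k) a) x) atTop
        (𝓝 0) := by
      refine tendsto_const_nhds.congr' ?_
      filter_upwards [eventually_ge_atTop K] with k hk
      exact (hint k hk).symm
    have h6 : (W : ℂ) = 0 := tendsto_nhds_unique hlim h0
    have h7 : W = 0 := by exact_mod_cast h6
    rcases (ENNReal.toReal_eq_zero_iff _).1 h7 with h8 | h8
    · exact h8
    · exact absurd h8 hAfin.ne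
  have hcov : HM V γ ε K ⊆ ⋃ R : ℕ, HM V γ ε K ∩ Set.Icc (-(R : ℝ)) R := by
    intro x hx
    obtain ⟨R, hRx⟩ := exists_nat_ge |x|
    exact Set.mem_iUnion.2 ⟨R, hx, abs_le.1 hRx⟩
  exact measure_mono_null hcov (measure_iUnion_null hR)

/-- **Localised Pyatetskii-Shapiro theorem.** -/
theorem local_HM (c : ℤ → ℂ) {C : ℝ} (hC : ∀ n, ‖c n‖ ≤ C)
    (hs : ∀ ε : ℝ, 0 < ε → ∃ M : ℕ, ∀ n : ℤ, M ≤ n.natAbs → ‖c n‖ ≤ ε)
    {x0 h ε : ℝ} (h0 : 0 < h) (hε : 0 < ε) {m : ℕ} {V : ℕ → Fin m → ℤ} (hV : QI V)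
    (γ : Fin m → ℝ) (K0 : ℕ)
    (H : ∀ k, K0 ≤ k → ∃ δ : ℝ, 0 < δ ∧ ∀ x t : ℝ, 0 < t → t < δ → |x - x0| < h →
      (∀ j, nd (V k j * x - γ j) < ε) → D c x t = 0) :
    D c x0 h = 0 := by
  have hC0 : 0 ≤ C := (norm_nonneg _).trans (hC 0)
  set b : ℤ → ℂ := fun a => (u (Real.pi * a * h) : ℂ) * ex a (-x0) with hb
  have hbs : Summable fun a => ‖b a‖ := by
    refine (summable_tent h0).congr fun a => ?_
    rw [hb]
    simp only
    rw [norm_mul, ex_norm, mul_one, Complex.norm_real, Real.norm_eq_abs, abs_of_nonneg (u_nonneg _)]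
  have hbtent : ∀ y : ℝ, tent h (y - x0) = ∑' a : ℤ, b a * ex a y := by
    intro y
    unfold tent
    congr 1
    ext a
    rw [hb]
    simp only
    rw [sub_eq_add_neg, ex_add_right]
    ring
  have hts := tw_summable γ hε
  have hws : Summable fun p : ℤ × (Fin m → ℤ) => ‖b p.1 * tw γ ε p.2‖ := by
    refine (hbs.mul_of_nonneg hts (fun _ => norm_nonneg _) (fun _ => norm_nonneg _)).congr ?_
    intro p
    exact (norm_mul (b p.1) _).symm
  have hz : ∀ k, K0 ≤ k →
      ∑' p : ℤ × (Fin m → ℤ), b p.1 * tw γ ε p.2 * c (-(p.1 + lf (V k) p.2)) = 0 := by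
    intro k hk
    obtain ⟨δ, hδ, hH⟩ := H k hk
    apply formal c hC (fun p : ℤ × (Fin m → ℤ) => b p.1 * tw γ ε p.2) hws
      (fun p => p.1 + lf (V k) p.2) hδ
    intro x t ht htδ
    have h1 : ∑' p : ℤ × (Fin m → ℤ), b p.1 * tw γ ε p.2 * ex (p.1 + lf (V k) p.2) x =
        tent h (x - x0) * ∏ j, tent ε (V k j * x - γ j) := by
      rw [hbtent, tent_prod γ hε, tsum_mul_tsum_of_summable_norm]
      · congr 1
        ext p
        rw [ex_add_left]
        ring
      · refine hbs.congr fun a => ?_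
        rw [norm_mul (b a), ex_norm, mul_one]
      · refine hts.congr fun a => ?_
        rw [norm_mul (tw γ ε a), ex_norm, mul_one]
    rw [h1]
    by_cases hx : |x - x0 - round (x - x0)| < h
    · by_cases hj : ∀ j, nd (V k j * x - γ j) < ε
      · have e1 : x = (x - (round (x - x0) : ℤ)) + ((round (x - x0) : ℤ) : ℝ) := by ring
        have e2 : D c (x - (round (x - x0) : ℤ)) t = 0 := by
          apply hH _ _ ht htδ
          · have : x - (round (x - x0) : ℤ) - x0 = x - x0 - round (x - x0) := by ring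
            rw [this]
            exact hx
          · intro j
            have h2 := hj j
            have h3 : (V k j : ℝ) * (x - (round (x - x0) : ℤ)) - γ j =
                (V k j * x - γ j) - ((V k j * round (x - x0) : ℤ) : ℝ) := by
              push_cast
              ring
            rw [h3]
            unfold nd at h2 ⊢
            rw [round_sub_intCast]
            push_cast
            convert h2 using 2
            ring
        rw [e1, D_add_int, e2, mul_zero]
      · push Not at hj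
        obtain ⟨j, hj⟩ := hj
        rw [Finset.prod_eq_zero (Finset.mem_univ j) (tent_eq_zero hε hj)]
        simp
    · push Not at hx
      rw [tent_eq_zero h0 hx]
      simp
  -- the limit
  have hlim : Tendsto (fun k => ∑' p : ℤ × (Fin m → ℤ),
      b p.1 * tw γ ε p.2 * c (-(p.1 + lf (V k) p.2))) atTop
      (𝓝 (∑' p : ℤ × (Fin m → ℤ), if p.2 = 0 then b p.1 * c (-p.1) else 0)) := by
    refine tendsto_tsum_of_dominated_convergence
      (bound := fun p => ‖b p.1 * tw γ ε p.2‖ * C) (hws.mul_right _) ?_ ?_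
    · rintro ⟨a, a'⟩
      by_cases ha : a' = 0
      · subst ha
        simp only [lf_zero, tw_zero, if_true, mul_one, add_zero]
        exact tendsto_const_nhds
      · simp only [if_neg ha]
        have h1 : Tendsto (fun k => c (-(a + lf (V k) a'))) atTop (𝓝 0) := by
          rw [Metric.tendsto_atTop]
          intro e he
          obtain ⟨M, hM⟩ := hs (e / 2) (by positivity)
          obtain ⟨K, hK⟩ := eventually_atTop.1 ((hV a' ha).eventually_ge_atTop ((M : ℝ) + |(a : ℝ)|))
          refine ⟨K, fun k hk => ?_⟩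
          have h2 := hK k hk
          have h3 : M ≤ (-(a + lf (V k) a')).natAbs := by
            have h4 : (M : ℤ) + |a| ≤ |lf (V k) a'| := by exact_mod_cast h2
            have h5 : |lf (V k) a'| ≤ |a + lf (V k) a'| + |a| := by
              have := abs_sub (a + lf (V k) a') a
              rwa [add_sub_cancel_left] at this
            rw [Int.natAbs_neg]
            have h6 : (M : ℤ) ≤ |a + lf (V k) a'| := by linarith
            rw [Int.abs_eq_natAbs] at h6
            exact_mod_cast h6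
          rw [dist_zero_right]
          have := hM _ h3
          linarith
        have h2 := h1.const_mul (b a * tw γ ε a')
        rwa [mul_zero] at h2
    · refine Eventually.of_forall fun k p => ?_
      rw [norm_mul]
      exact mul_le_mul_of_nonneg_left (hC _) (norm_nonneg _)
  have h3 : ∑' p : ℤ × (Fin m → ℤ), (if p.2 = 0 then b p.1 * c (-p.1) else 0) = 0 := by
    refine tendsto_nhds_unique (hlim.congr' ?_) tendsto_const_nhds
    filter_upwards [eventually_ge_atTop K0] with k hk
    exact hz k hk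
  have hsum2 : Summable fun p : ℤ × (Fin m → ℤ) => (if p.2 = 0 then b p.1 * c (-p.1) else 0) := by
    refine Summable.of_norm_bounded (hws.mul_right C) fun p => ?_
    by_cases hp : p.2 = 0
    · rw [if_pos hp, hp, tw_zero, mul_one, norm_mul (b p.1) (c (-p.1))]
      exact mul_le_mul_of_nonneg_left (hC _) (norm_nonneg _)
    · rw [if_neg hp, norm_zero]
      positivity
  rw [hsum2.tsum_prod] at h3
  simp only [tsum_ite_eq] at h3
  unfold D
  rw [← h3, ← (Equiv.neg ℤ).tsum_eq (fun a : ℤ => b a * c (-a))]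
  congr 1
  ext n
  simp only [Equiv.neg_apply, neg_neg, hb]
  have e6 : Real.pi * ((-n : ℤ) : ℝ) * h = -(Real.pi * n * h) := by push_cast; ring
  rw [e6, u_neg]
  have e7 : ex (-n) (-x0) = ex n x0 := by
    rw [ex_neg, ex_neg_right, Complex.conj_conj]
  rw [e7]
  ring

/-- The case of a set of type `H^(m)`. -/
lemma case_HM (c : ℤ → ℂ) {C : ℝ} (hC : ∀ n, ‖c n‖ ≤ C)
    (hs : ∀ ε : ℝ, 0 < ε → ∃ M : ℕ, ∀ n : ℤ, M ≤ n.natAbs → ‖c n‖ ≤ ε)
    {m : ℕ} {V : ℕ → Fin m → ℤ} (hV : QI V) {γ : Fin m → ℝ} {ε : ℝ} (hε : 0 < ε) (K : ℕ)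
    {x δ : ℝ} (hδ : 0 < δ) (h : ∀ z, |z - x| < δ → z ∈ P c → z ∈ HM V γ ε K)
    {y t : ℝ} (ht : 0 < t) (hy : |y - x| < δ / 4) (htδ : t < δ / 4) : dd c y t = 0 := by
  apply dd_zero_of_D c hC ht.ne'
  apply local_HM c hC hs ht (half_pos hε) hV γ K
  intro k hk
  -- a bound for the entries of `V k`
  set B : ℝ := 1 + ∑ j, |(V k j : ℝ)| with hB
  have hB0 : 0 < B := by
    have : 0 ≤ ∑ j, |(V k j : ℝ)| := Finset.sum_nonneg fun _ _ => abs_nonneg _
    linarith
  have hBj : ∀ j, |(V k j : ℝ)| ≤ B := by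
    intro j
    have := Finset.single_le_sum (f := fun j => |(V k j : ℝ)|) (fun _ _ => abs_nonneg _)
      (Finset.mem_univ j)
    linarith
  refine ⟨min (δ / 4) (ε / 2 / B), lt_min (by positivity) (by positivity), ?_⟩
  intro x' t' ht' htt' hx' hj
  have ht1 : t' < δ / 4 := lt_of_lt_of_le htt' (min_le_left _ _)
  have ht2 : t' < ε / 2 / B := lt_of_lt_of_le htt' (min_le_right _ _)
  rw [lt_div_iff₀ hB0] at ht2
  apply D_zero_of_dd c hC ht'.ne'
  apply dd_zero_of_not_P c hC ht'
  intro z hz hzP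
  have hz1 : |z - x'| < t' := by
    rw [abs_lt]
    constructor <;> linarith [hz.1, hz.2]
  have hzx : |z - x| < δ := by
    have h1 := abs_add_le (z - x') (x' - x)
    have h2 := abs_add_le (x' - y) (y - x)
    rw [sub_add_sub_cancel] at h1 h2
    linarith
  obtain ⟨j, h3⟩ := h z hzx hzP k hk
  have h4 := hj j
  have h5 : (V k j : ℝ) * z - γ j = (V k j * x' - γ j) + V k j * (z - x') := by ring
  rw [h5] at h3
  have h6 := nd_add (V k j * x' - γ j) (V k j * (z - x'))
  have h7 : |(V k j : ℝ) * (z - x')| ≤ t' * B := by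
    rw [abs_mul, mul_comm]
    exact mul_le_mul hz1.le (hBj j) (abs_nonneg _) ht'.le
  linarith

/-- the vectors `V_k x` come close to every point of the torus infinitely often -/
def DM {m : ℕ} (V : ℕ → Fin m → ℤ) (x : ℝ) : Prop :=
  ∀ (γ : Fin m → ℝ) (ε : ℝ), 0 < ε → ∀ K : ℕ, ∃ k, K ≤ k ∧ ∀ j, nd (V k j * x - γ j) < ε

lemma DM_of_not_HM {m : ℕ} {V : ℕ → Fin m → ℤ} {x : ℝ}
    (h : ∀ (γ : Fin m → ℚ) (M K : ℕ), x ∉ HM V (fun j => (γ j : ℝ)) (1 / ((M : ℝ) + 1)) K) :
    DM V x := by
  intro γ ε hε K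
  obtain ⟨M, hM⟩ := exists_nat_one_div_lt (half_pos hε)
  have hr : ∀ j, ∃ r : ℚ, |(r : ℝ) - γ j| < ε / 2 := by
    intro j
    obtain ⟨r, hr1, hr2⟩ := exists_rat_btwn (show γ j - ε / 2 < γ j + ε / 2 by linarith)
    exact ⟨r, by rw [abs_lt]; constructor <;> linarith⟩
  choose r hr using hr
  have h1 := h r M K
  simp only [HM, Set.mem_ofPred_eq, not_forall, not_exists, not_le] at h1
  obtain ⟨k, hk, h2⟩ := h1
  refine ⟨k, hk, fun j => ?_⟩
  have h3 : (V k j : ℝ) * x - γ j = (V k j * x - r j) + (r j - γ j) := by ring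
  rw [h3]
  have h4 := nd_add (V k j * x - r j) (r j - γ j)
  have h5 := hr j
  have h6 := h2 j
  linarith

/-- **Pyatetskii-Shapiro, Bary.** -/
theorem uniqueness_multi {ι : Type} [Countable ι] (m : ι → ℕ) (V : ∀ i, ℕ → Fin (m i) → ℤ)
    (hV : ∀ i, QI (V i)) (c : ℤ → ℂ)
    (H : ∀ x : ℝ, (∀ i, DM (V i) x) → Tendsto (fun N : ℕ => S c N x) atTop (𝓝 0))
    (l : ℤ) : c l = 0 := by
  -- the exceptional set
  let J : Type := (i : ι) × ((Fin (m i) → ℚ) × ℕ × ℕ)
  let X : J → Set ℝ := fun j => HM (V j.1) (fun s => (j.2.1 s : ℝ)) (1 / ((j.2.2.1 : ℝ) + 1)) j.2.2.2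
  set E : Set ℝ := ⋃ j, X j with hE
  have hE0 : volume E = 0 := measure_iUnion_null fun j => HM_null (hV j.1) _ (by positivity) _
  have hconv : ∀ x, x ∉ E → Tendsto (fun N : ℕ => S c N x) atTop (𝓝 0) := by
    intro x hx
    apply H x
    intro i
    apply DM_of_not_HM
    intro γ M K hc
    exact hx (Set.mem_iUnion.2 ⟨⟨i, γ, M, K⟩, hc⟩)
  have hae : ∀ᵐ x : ℝ, Tendsto (fun N : ℕ => S c N x) atTop (𝓝 0) := by
    rw [ae_iff]
    refine measure_mono_null (fun x hx => ?_) hE0
    by_contra hc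
    exact hx (hconv x hc)
  have hs := coeff_ae c hae
  obtain ⟨C, hC⟩ := bdd_of_small c hs
  -- the support is empty
  have hP : P c = ∅ := by
    by_contra hne
    have hne' : (P c).Nonempty := Set.nonempty_iff_ne_empty.2 hne
    have hcl := P_closed c
    have : Nonempty (P c) := hne'.to_subtype
    have : CompleteSpace (P c) := hcl.completeSpace_coe
    let f : J ⊕ ℕ → Set (P c) := fun j => match j with
      | Sum.inl j => {x | (x : ℝ) ∈ X j}
      | Sum.inr M => {x | ∀ N : ℕ, ‖S c N (x : ℝ)‖ ≤ M}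
    have hfc : ∀ j, IsClosed (f j) := by
      intro j
      cases j with
      | inl j => exact (HM_closed _ _ _ _).preimage continuous_subtype_val
      | inr M =>
        have h1 : f (Sum.inr M) = ⋂ N : ℕ, {x : P c | ‖S c N (x : ℝ)‖ ≤ M} := by
          ext x
          simp [f]
        rw [h1]
        refine isClosed_iInter fun N => isClosed_le (Continuous.norm ?_) continuous_const
        unfold S
        exact continuous_finsetSum _ fun n _ =>
          continuous_const.mul ((ex_cont n).comp continuous_subtype_val)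
    have hfu : ⋃ j, f j = Set.univ := by
      rw [Set.eq_univ_iff_forall]
      intro x
      by_cases hx : (x : ℝ) ∈ E
      · obtain ⟨j, hj⟩ := Set.mem_iUnion.1 hx
        exact Set.mem_iUnion.2 ⟨Sum.inl j, hj⟩
      · have h1 := (hconv x hx).norm.bddAbove_range
        obtain ⟨B, hB⟩ := h1
        obtain ⟨M, hM⟩ := exists_nat_ge B
        refine Set.mem_iUnion.2 ⟨Sum.inr M, fun N => ?_⟩
        exact (hB ⟨N, rfl⟩).trans hM
    obtain ⟨j, x, hx⟩ := nonempty_interior_of_iUnion_of_closed hfc hfu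
    rw [mem_interior_iff_mem_nhds, Metric.mem_nhds_iff] at hx
    obtain ⟨δ, hδ, hball⟩ := hx
    have hloc : ∀ z (hz : z ∈ P c), |z - x| < δ → (⟨z, hz⟩ : P c) ∈ f j := by
      intro z hz hzx
      apply hball
      rw [Metric.mem_ball, Subtype.dist_eq, Real.dist_eq]
      exact hzx
    -- contradiction
    have hzero : ∀ y t : ℝ, |y - x| < δ / 4 → 0 < t → t < δ / 4 → dd c y t = 0 := by
      intro y t hy ht htδ
      cases j with
      | inl j =>
        exact case_HM c hC hs (hV j.1) (by positivity) j.2.2.2 hδ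
          (fun z hzx hz => hloc z hz hzx) ht hy htδ
      | inr M =>
        refine case_bounded c hC hE0 hconv ht (M := M) fun z hz hzP => hloc z hzP ?_
        have h1 : |z - y| < t := by
          rw [abs_lt]
          constructor <;> linarith [hz.1, hz.2]
        have h2 := abs_add_le (z - y) (y - x)
        rw [sub_add_sub_cancel] at h2
        linarith
    obtain ⟨y, t, hy, ht, htδ, hne⟩ := x.2 (δ / 4) (by positivity)
    exact hne (hzero y t hy ht htδ)
  -- conclusion
  have hdd : ∀ y t : ℝ, 0 < t → dd c y t = 0 := fun y t ht =>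
    dd_zero_of_not_P c hC ht fun z _ => by rw [hP]; exact Set.notMem_empty z
  have h1 := formal c hC (I := Unit) (fun _ => 1) (hasSum_fintype _).summable (fun _ => -l) one_pos (by
    intro x t ht _
    rw [D_zero_of_dd c hC ht.ne' _ (hdd _ _ ht), mul_zero])
  simpa using h1

/-! ### real multipliers -/

/-- quasi-independence of real vectors -/
def QR {m : ℕ} (v : ℕ → Fin m → ℝ) : Prop :=
  ∀ a : Fin m → ℤ, a ≠ 0 → Tendsto (fun k => |∑ j, (a j : ℝ) * v k j|) atTop atTop

/-- density for real multipliers -/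
def DR {m : ℕ} (v : ℕ → Fin m → ℝ) (x : ℝ) : Prop :=
  ∀ (γ : Fin m → ℝ) (ε : ℝ), 0 < ε → ∀ K : ℕ, ∃ k, K ≤ k ∧ ∀ j, nd (v k j * x - γ j) < ε

lemma real_to_int {m : ℕ} (v : ℕ → Fin m → ℝ) (hv : QR v) :
    ∃ V : ℕ → Fin m → ℤ, QI V ∧ ∀ x : ℝ, DM V x → DR v x := by
  -- a convergent subsequence of the fractional parts
  obtain ⟨r, _, φ, hφ, hr⟩ := (isCompact_univ_pi fun _ : Fin m => isCompact_Icc (a := (0:ℝ)) (b := 1)).tendsto_subseq
    (x := fun k j => Int.fract (v k j)) (fun k => by
      intro j _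
      exact ⟨Int.fract_nonneg _, (Int.fract_lt_one _).le⟩)
  have hrj : ∀ j, Tendsto (fun k => Int.fract (v (φ k) j)) atTop (𝓝 (r j)) := fun j =>
    (tendsto_pi_nhds.1 hr) j
  refine ⟨fun k j => ⌊v (φ k) j⌋, ?_, ?_⟩
  · intro a ha
    have h1 := (hv a ha).comp hφ.tendsto_atTop
    have h2 := tendsto_atTop_add_const_right atTop (-(∑ j, |(a j : ℝ)|)) h1
    refine tendsto_atTop_mono (fun k => ?_) h2
    simp only [Function.comp_apply]
    have e1 : (((lf (fun j => ⌊v (φ k) j⌋) a : ℤ)) : ℝ) = ∑ j, (a j : ℝ) * v (φ k) j -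
        ∑ j, (a j : ℝ) * Int.fract (v (φ k) j) := by
      unfold lf
      push_cast
      rw [← Finset.sum_sub_distrib]
      apply Finset.sum_congr rfl
      intro j _
      rw [← mul_sub]
      congr 1
      have := Int.floor_add_fract (v (φ k) j)
      linarith
    rw [e1]
    have e2 : |∑ j, (a j : ℝ) * Int.fract (v (φ k) j)| ≤ ∑ j, |(a j : ℝ)| := by
      refine (Finset.abs_sum_le_sum_abs _ _).trans (Finset.sum_le_sum fun j _ => ?_)
      rw [abs_mul, abs_of_nonneg (Int.fract_nonneg (v (φ k) j))]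
      exact mul_le_of_le_one_right (abs_nonneg _) (Int.fract_lt_one _).le
    have e3 := abs_sub_abs_le_abs_sub (∑ j, (a j : ℝ) * v (φ k) j)
      (∑ j, (a j : ℝ) * Int.fract (v (φ k) j))
    linarith
  · intro x hx γ ε hε K
    have hx1 : 0 < |x| + 1 := by positivity
    have h1 : ∀ᶠ k in atTop, ∀ j, |Int.fract (v (φ k) j) - r j| < ε / 2 / (|x| + 1) := by
      rw [eventually_all]
      intro j
      have := (Metric.tendsto_nhds.1 (hrj j)) (ε / 2 / (|x| + 1)) (by positivity)
      simpa [Real.dist_eq] using this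
    obtain ⟨K1, hK1⟩ := eventually_atTop.1 h1
    obtain ⟨k, hk, h2⟩ := hx (fun j => γ j - r j * x) (ε / 2) (by positivity) (max K K1)
    refine ⟨φ k, (le_max_left _ _).trans (hk.trans (hφ.le_apply)), fun j => ?_⟩
    have h3 := h2 j
    have h4 := hK1 k ((le_max_right _ _).trans hk) j
    have e1 : v (φ k) j * x - γ j = ((⌊v (φ k) j⌋ : ℝ) * x - (γ j - r j * x)) +
        (Int.fract (v (φ k) j) - r j) * x := by
      have := Int.floor_add_fract (v (φ k) j)
      have e2 : (⌊v (φ k) j⌋ : ℝ) = v (φ k) j - Int.fract (v (φ k) j) := by linarith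
      rw [e2]
      ring
    rw [e1]
    have h5 := nd_add ((⌊v (φ k) j⌋ : ℝ) * x - (γ j - r j * x)) ((Int.fract (v (φ k) j) - r j) * x)
    have h6 : |(Int.fract (v (φ k) j) - r j) * x| ≤ ε / 2 := by
      rw [abs_mul]
      calc _ ≤ ε / 2 / (|x| + 1) * |x| := mul_le_mul_of_nonneg_right h4.le (abs_nonneg _)
        _ ≤ ε / 2 / (|x| + 1) * (|x| + 1) := by
          apply mul_le_mul_of_nonneg_left _ (by positivity)
          linarith
        _ = ε / 2 := by field_simp
    linarith

/-- Countably many quasi-independent sequences of real vectors. -/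
theorem uniqueness_real {ι : Type} [Countable ι] (m : ι → ℕ) (v : ∀ i, ℕ → Fin (m i) → ℝ)
    (hv : ∀ i, QR (v i)) (c : ℤ → ℂ)
    (H : ∀ x : ℝ, (∀ i, DR (v i) x) → Tendsto (fun N : ℕ => S c N x) atTop (𝓝 0))
    (l : ℤ) : c l = 0 := by
  choose V h1 h2 using fun i => real_to_int (v i) (hv i)
  exact uniqueness_multi m V h1 c (fun x hx => H x fun i => h2 i x (hx i)) l

end Pool.Agent.TH723.BR
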